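import Pool.Agent.H96.BH.DfD
import Pool.Agent.H61.HB.FtA
import Pool.Agent.H61.HB.FtD

/-!
# [H96 BH AVA] The second moment of the autocorrelation over the products `m c`

`F c = (1/P) ∑ x, g x * g (x + c) = ∑ r, ‖ft g r‖² ee(r c)` (`inv_ft`, orthogonality `sum_ee`; or expand both `g` by `inv_ft`; `F` is real).
`fsq`: `F(m (c' - c))² = ‖F‖² = ∑ r, ∑ s, ‖ft g r‖² ‖ft g s‖² ee((r - s) (m c' - m c))`; sum over `c, c' : Fin L` and `m : Fin M`: the inner sum is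
`∑ m, ‖∑ c, ee((r - s) m c)‖² = kf M L (r - s)`.
`fbd`: `∑ r, ‖ft g r‖² ≤ 1` (`parseval`, `|g| ≤ 1`). For fixed `r` the `s` with `kf M L (r - s) < κ M L²` contribute at most `κ M L²`, the others (at most `Q`) at most
`Q η² M L²` (`kf ≤ M L²`).
-/

set_option autoImplicit false

namespace Pool.Agent.H96.BH

open Finset

variable {P : ℕ} [NeZero P]

/-- autocorrelation -/
noncomputable def acr (g : ZMod P → ℝ) (c : ZMod P) : ℝ := (∑ x, g x * g (x + c)) / P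

theorem acr_eq (g : ZMod P → ℝ) (c : ZMod P) :
    (acr g c : ℂ) = ∑ r, (‖Pool.Agent.H61.HB.ft g r‖ ^ 2 : ℝ) * Pool.Agent.H61.HB.ee (r * c) := by
  have hP : (P : ℂ) ≠ 0 := Nat.cast_ne_zero.2 (NeZero.ne P)
  have h1 : ∀ r, ((‖Pool.Agent.H61.HB.ft g r‖ ^ 2 : ℝ) : ℂ) * Pool.Agent.H61.HB.ee (r * c) =
      ∑ t, 1 / (P : ℂ) * ((g t : ℂ) * (Pool.Agent.H61.HB.ft g r * Pool.Agent.H61.HB.ee (r * (t + c)))) := by
    intro r
    have h2 : (starRingEnd ℂ) (Pool.Agent.H61.HB.ft g r) =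
        1 / (P : ℂ) * ∑ t, (g t : ℂ) * Pool.Agent.H61.HB.ee (r * t) := by
      unfold Pool.Agent.H61.HB.ft
      rw [map_mul, map_div₀, map_one, map_natCast, map_sum]
      congr 1
      refine Finset.sum_congr rfl fun t _ => ?_
      rw [map_mul, Complex.conj_ofReal, ← Pool.Agent.H61.HB.ee_neg, neg_neg]
    rw [Complex.ofReal_pow, ← Complex.mul_conj', h2, Finset.mul_sum, Finset.mul_sum,
      Finset.sum_mul]
    refine Finset.sum_congr rfl fun t _ => ?_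
    rw [mul_add, Pool.Agent.H61.HB.ee_add]
    ring
  rw [Finset.sum_congr rfl fun r _ => h1 r, Finset.sum_comm]
  have h3 : ∀ t, ∑ r, 1 / (P : ℂ) *
      ((g t : ℂ) * (Pool.Agent.H61.HB.ft g r * Pool.Agent.H61.HB.ee (r * (t + c)))) =
      1 / (P : ℂ) * ((g t : ℂ) * (g (t + c) : ℂ)) := by
    intro t
    rw [← Finset.mul_sum, ← Finset.mul_sum, ← Pool.Agent.H61.HB.inv_ft]
  rw [Finset.sum_congr rfl fun t _ => h3 t, ← Finset.mul_sum]
  unfold acr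
  push_cast
  rw [div_eq_mul_inv, mul_comm, one_div]

theorem fsq (g : ZMod P → ℝ) (M L : ℕ) :
    ∑ m : Fin M, ∑ c : Fin L, ∑ c' : Fin L, acr g (mc m c' - mc m c) ^ 2 =
      ∑ r, ∑ s, ‖Pool.Agent.H61.HB.ft g r‖ ^ 2 * ‖Pool.Agent.H61.HB.ft g s‖ ^ 2 * kf M L (r - s) := by
  apply Complex.ofReal_injective
  have hq : ∀ (q : ZMod P), ((kf M L q : ℝ) : ℂ) =
      ∑ m : Fin M, ∑ c : Fin L, ∑ c' : Fin L, Pool.Agent.H61.HB.ee (q * (mc m c' - mc m c)) := by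
    intro q
    unfold kf
    rw [Complex.ofReal_sum]
    refine Finset.sum_congr rfl fun m _ => ?_
    rw [Complex.ofReal_pow, ← Complex.mul_conj', map_sum, Finset.mul_sum]
    refine Finset.sum_congr rfl fun c _ => ?_
    rw [Finset.sum_mul]
    refine Finset.sum_congr rfl fun c' _ => ?_
    rw [← Pool.Agent.H61.HB.ee_neg, ← Pool.Agent.H61.HB.ee_add]
    congr 1
    ring
  have hF : ∀ c : ZMod P, ((acr g c ^ 2 : ℝ) : ℂ) =
      ∑ r, ∑ s, ((‖Pool.Agent.H61.HB.ft g r‖ ^ 2 * ‖Pool.Agent.H61.HB.ft g s‖ ^ 2 : ℝ) : ℂ) *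
        Pool.Agent.H61.HB.ee ((r - s) * c) := by
    intro c
    have h1 : ((acr g c ^ 2 : ℝ) : ℂ) = (acr g c : ℂ) * (starRingEnd ℂ) (acr g c : ℂ) := by
      rw [Complex.conj_ofReal]
      push_cast
      ring
    rw [h1, acr_eq, map_sum, Finset.sum_mul]
    refine Finset.sum_congr rfl fun r _ => ?_
    rw [Finset.mul_sum]
    refine Finset.sum_congr rfl fun s _ => ?_
    rw [map_mul, Complex.conj_ofReal, ← Pool.Agent.H61.HB.ee_neg]
    have h2 : (r - s) * c = r * c + -(s * c) := by ring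
    rw [h2, Pool.Agent.H61.HB.ee_add]
    push_cast
    ring
  rw [Complex.ofReal_sum]
  have hL : ∀ m : Fin M, ((∑ c : Fin L, ∑ c' : Fin L, acr g (mc m c' - mc m c) ^ 2 : ℝ) : ℂ) =
      ∑ r, ∑ s, ((‖Pool.Agent.H61.HB.ft g r‖ ^ 2 * ‖Pool.Agent.H61.HB.ft g s‖ ^ 2 : ℝ) : ℂ) *
        ∑ c : Fin L, ∑ c' : Fin L, Pool.Agent.H61.HB.ee ((r - s) * (mc m c' - mc m c)) := by
    intro m
    rw [Complex.ofReal_sum]
    have h3 : ∀ c : Fin L, ((∑ c' : Fin L, acr g (mc m c' - mc m c) ^ 2 : ℝ) : ℂ) =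
        ∑ r, ∑ s, ∑ c' : Fin L,
          ((‖Pool.Agent.H61.HB.ft g r‖ ^ 2 * ‖Pool.Agent.H61.HB.ft g s‖ ^ 2 : ℝ) : ℂ) *
          Pool.Agent.H61.HB.ee ((r - s) * (mc m c' - mc m c)) := by
      intro c
      rw [Complex.ofReal_sum, Finset.sum_congr rfl fun c' _ => hF (mc m c' - mc m c),
        Finset.sum_comm]
      refine Finset.sum_congr rfl fun r _ => ?_
      rw [Finset.sum_comm]
    rw [Finset.sum_congr rfl fun c _ => h3 c, Finset.sum_comm]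
    refine Finset.sum_congr rfl fun r _ => ?_
    rw [Finset.sum_comm]
    refine Finset.sum_congr rfl fun s _ => ?_
    rw [Finset.mul_sum]
    refine Finset.sum_congr rfl fun c _ => ?_
    rw [Finset.mul_sum]
  rw [Finset.sum_congr rfl fun m _ => hL m, Finset.sum_comm, Complex.ofReal_sum]
  refine Finset.sum_congr rfl fun r _ => ?_
  rw [Finset.sum_comm, Complex.ofReal_sum]
  refine Finset.sum_congr rfl fun s _ => ?_
  rw [← Finset.mul_sum, ← hq]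
  push_cast
  ring

theorem fbd {g : ZMod P → ℝ} (hg : ∀ x, |g x| ≤ 1) {κ η : ℝ} (hκ : 0 ≤ κ) (hη : 0 ≤ η)
    (hη2 : ∀ r, ‖Pool.Agent.H61.HB.ft g r‖ ≤ η) (M L Q : ℕ)
    (hQ : (((univ : Finset (ZMod P)).filter fun q : ZMod P => κ * M * (L : ℝ) ^ 2 ≤ kf M L q).card : ℝ) ≤ Q) :
    ∑ m : Fin M, ∑ c : Fin L, ∑ c' : Fin L, acr g (mc m c' - mc m c) ^ 2 ≤ (κ + Q * η ^ 2) * M * (L : ℝ) ^ 2 := by
  classical
  have hP : (0 : ℝ) < P := by exact_mod_cast Nat.pos_of_ne_zero (NeZero.ne P)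
  set a : ZMod P → ℝ := fun r => ‖Pool.Agent.H61.HB.ft g r‖ ^ 2 with ha
  have ha0 : ∀ r, 0 ≤ a r := fun r => sq_nonneg _
  have hsum : ∑ r, a r ≤ 1 := by
    have h1 := Pool.Agent.H61.HB.parseval g
    have h2 : ∑ t, g t ^ 2 ≤ (P : ℝ) := by
      calc ∑ t, g t ^ 2 ≤ ∑ _t : ZMod P, (1 : ℝ) :=
            Finset.sum_le_sum fun t _ => by
              rw [← sq_abs]
              exact pow_le_one₀ (abs_nonneg _) (hg t)
        _ = (P : ℝ) := by
            rw [Finset.sum_const, Finset.card_univ, ZMod.card, nsmul_eq_mul, mul_one]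
    simp only [ha]
    rw [h1]
    calc 1 / (P : ℝ) * ∑ t, g t ^ 2 ≤ 1 / (P : ℝ) * P :=
          mul_le_mul_of_nonneg_left h2 (by positivity)
      _ = 1 := by rw [one_div, inv_mul_cancel₀ hP.ne']
  have haη : ∀ r, a r ≤ η ^ 2 := fun r => pow_le_pow_left₀ (norm_nonneg _) (hη2 r) 2
  have hkf : ∀ q : ZMod P, kf M L q ≤ M * (L : ℝ) ^ 2 := by
    intro q
    unfold kf
    calc ∑ m : Fin M, ‖∑ c : Fin L, Pool.Agent.H61.HB.ee (q * mc m c)‖ ^ 2
        ≤ ∑ _m : Fin M, (L : ℝ) ^ 2 := by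
          refine Finset.sum_le_sum fun m _ => ?_
          refine pow_le_pow_left₀ (norm_nonneg _) ?_ 2
          calc ‖∑ c : Fin L, Pool.Agent.H61.HB.ee (q * mc m c)‖
              ≤ ∑ c : Fin L, ‖Pool.Agent.H61.HB.ee (q * mc m c)‖ := norm_sum_le _ _
            _ = ∑ _c : Fin L, (1 : ℝ) := Finset.sum_congr rfl fun c _ =>
                Pool.Agent.H61.HB.norm_ee _
            _ = L := by simp
      _ = M * (L : ℝ) ^ 2 := by simp
  have hX : (0 : ℝ) ≤ M * (L : ℝ) ^ 2 := by positivity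
  rw [fsq]
  have hr : ∀ r, ∑ s, ‖Pool.Agent.H61.HB.ft g r‖ ^ 2 * ‖Pool.Agent.H61.HB.ft g s‖ ^ 2 *
      kf M L (r - s) ≤ a r * ((κ + Q * η ^ 2) * (M * (L : ℝ) ^ 2)) := by
    intro r
    have h1 : ∑ s, ‖Pool.Agent.H61.HB.ft g r‖ ^ 2 * ‖Pool.Agent.H61.HB.ft g s‖ ^ 2 *
        kf M L (r - s) = a r * ∑ s, a s * kf M L (r - s) := by
      rw [Finset.mul_sum]
      refine Finset.sum_congr rfl fun s _ => ?_
      simp only [ha]
      ring
    rw [h1]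
    refine mul_le_mul_of_nonneg_left ?_ (ha0 r)
    have h2 : ∀ s, a s * kf M L (r - s) ≤ a s * (κ * (M * (L : ℝ) ^ 2)) +
        (if κ * M * (L : ℝ) ^ 2 ≤ kf M L (r - s) then η ^ 2 * (M * (L : ℝ) ^ 2) else 0) := by
      intro s
      split_ifs with hc
      · have h3 : a s * kf M L (r - s) ≤ η ^ 2 * (M * (L : ℝ) ^ 2) :=
          mul_le_mul (haη s) (hkf _) (by unfold kf; positivity) (sq_nonneg _)
        have h4 : 0 ≤ a s * (κ * (M * (L : ℝ) ^ 2)) :=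
          mul_nonneg (ha0 s) (mul_nonneg hκ hX)
        linarith
      · rw [add_zero]
        refine mul_le_mul_of_nonneg_left ?_ (ha0 s)
        rw [not_le] at hc
        linarith
    have h5 : ∑ s, (if κ * M * (L : ℝ) ^ 2 ≤ kf M L (r - s) then η ^ 2 * (M * (L : ℝ) ^ 2) else 0)
        ≤ Q * (η ^ 2 * (M * (L : ℝ) ^ 2)) := by
      rw [← Finset.sum_filter, Finset.sum_const, nsmul_eq_mul]
      refine mul_le_mul_of_nonneg_right ?_ (by positivity)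
      refine le_trans ?_ hQ
      norm_cast
      refine Finset.card_le_card_of_injOn (fun s => r - s) ?_ ?_
      · intro s hs
        have h6 := (Finset.mem_filter.1 (Finset.mem_coe.1 hs)).2
        exact Finset.mem_coe.2 (Finset.mem_filter.2 ⟨Finset.mem_univ _, h6⟩)
      · intro s _ s' _ h
        exact sub_right_injective h
    calc ∑ s, a s * kf M L (r - s) ≤ ∑ s, (a s * (κ * (M * (L : ℝ) ^ 2)) +
          (if κ * M * (L : ℝ) ^ 2 ≤ kf M L (r - s) then η ^ 2 * (M * (L : ℝ) ^ 2) else 0)) :=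
          Finset.sum_le_sum fun s _ => h2 s
      _ = (∑ s, a s) * (κ * (M * (L : ℝ) ^ 2)) + ∑ s, (if κ * M * (L : ℝ) ^ 2 ≤ kf M L (r - s)
          then η ^ 2 * (M * (L : ℝ) ^ 2) else 0) := by
          rw [Finset.sum_add_distrib, Finset.sum_mul]
      _ ≤ 1 * (κ * (M * (L : ℝ) ^ 2)) + Q * (η ^ 2 * (M * (L : ℝ) ^ 2)) :=
          add_le_add (mul_le_mul_of_nonneg_right hsum (mul_nonneg hκ hX)) h5
      _ = (κ + Q * η ^ 2) * (M * (L : ℝ) ^ 2) := by ring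
  calc ∑ r, ∑ s, ‖Pool.Agent.H61.HB.ft g r‖ ^ 2 * ‖Pool.Agent.H61.HB.ft g s‖ ^ 2 * kf M L (r - s)
      ≤ ∑ r, a r * ((κ + Q * η ^ 2) * (M * (L : ℝ) ^ 2)) := Finset.sum_le_sum fun r _ => hr r
    _ = (∑ r, a r) * ((κ + Q * η ^ 2) * (M * (L : ℝ) ^ 2)) := by rw [Finset.sum_mul]
    _ ≤ 1 * ((κ + Q * η ^ 2) * (M * (L : ℝ) ^ 2)) :=
        mul_le_mul_of_nonneg_right hsum (by positivity)
    _ = (κ + Q * η ^ 2) * M * (L : ℝ) ^ 2 := by ring

end Pool.Agent.H96.BH
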