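import Pool.Agent.H96.BH.Kq
import Pool.Agent.H96.BH.AvA

/-!
# [H96 BH AV] The bilinear average

`avb`: let `T m = ∑ c, ∑ x, W m c * G m x * g (x + mc m c)`. `T m ^ 2 ≤ P * ∑ x, (∑ c, W m c * g (x + mc m c))^2` (Cauchy-Schwarz in `x`, `|G| ≤ 1`)
`= P * ∑ c, ∑ c', W m c * W m c' * ∑ x, g (x + mc m c) * g (x + mc m c') ≤ P^2 * ∑ c, ∑ c', |acr g (mc m c' - mc m c)|` (translation). So
`(∑ m, |T m|)^2 ≤ M * ∑ m, T m ^ 2 ≤ M P^2 ∑ m, ∑ c, ∑ c', |acr ..|` and `(∑ ∑ ∑ |acr ..|)^2 ≤ M L^2 ∑ ∑ ∑ acr ..^2 ≤ M L^2 * (E M L^2)`: all together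
`(∑ m, |T m|)^4 ≤ M^2 P^4 * E * (M L^2)^2 = E (M L P)^4` and `E ≤ β^4`.
`av`: `κ = β^4 / 2`, `Q, M₀` from `kq`, `η^2 ≤ κ / (Q + 1)`.
-/

set_option autoImplicit false

namespace Pool.Agent.H96.BH

open Finset

theorem avb {P : ℕ} [NeZero P] {g : ZMod P → ℝ} {β : ℝ} (hβ : 0 ≤ β) (M L : ℕ)
    (h : ∑ m : Fin M, ∑ c : Fin L, ∑ c' : Fin L, acr g (mc m c' - mc m c) ^ 2 ≤ β ^ 4 * M * (L : ℝ) ^ 2) :
    AvP β M L g := by
  have hP : (0 : ℝ) < P := by exact_mod_cast Nat.pos_of_ne_zero (NeZero.ne P)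
  intro W G hW hG
  -- the autocorrelation
  have hac : ∀ a b : ZMod P, ∑ x, g (x + a) * g (x + b) = P * acr g (b - a) := by
    intro a b
    unfold acr
    rw [mul_div_cancel₀ _ hP.ne']
    refine Fintype.sum_equiv (Equiv.addRight a) _ _ fun x => ?_
    simp only [Equiv.coe_addRight]
    congr 2
    ring
  set T : Fin M → ℝ := fun m => ∑ c, ∑ x, W m c * G m x * g (x + mc m c) with hT
  set R : Fin M → ℝ := fun m => ∑ c : Fin L, ∑ c' : Fin L, |acr g (mc m c' - mc m c)| with hR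
  have hT2 : ∀ m, T m ^ 2 ≤ (P : ℝ) ^ 2 * R m := by
    intro m
    have h1 : T m = ∑ x, G m x * (∑ c, W m c * g (x + mc m c)) := by
      simp only [hT]
      rw [Finset.sum_comm]
      refine Finset.sum_congr rfl fun x _ => ?_
      rw [Finset.mul_sum]
      refine Finset.sum_congr rfl fun c _ => ?_
      ring
    have h2 : T m ^ 2 ≤ (∑ x, G m x ^ 2) * ∑ x, (∑ c, W m c * g (x + mc m c)) ^ 2 := by
      rw [h1]
      exact Finset.sum_mul_sq_le_sq_mul_sq _ _ _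
    have h3 : ∑ x, G m x ^ 2 ≤ P := by
      calc ∑ x, G m x ^ 2 ≤ ∑ _x : ZMod P, (1 : ℝ) :=
            Finset.sum_le_sum fun x _ => by
              rw [← sq_abs]
              exact pow_le_one₀ (abs_nonneg _) (hG m x)
        _ = (P : ℝ) := by
            rw [Finset.sum_const, Finset.card_univ, ZMod.card, nsmul_eq_mul, mul_one]
    have h4 : ∑ x, (∑ c, W m c * g (x + mc m c)) ^ 2 ≤ P * R m := by
      have h5 : ∑ x, (∑ c, W m c * g (x + mc m c)) ^ 2 =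
          ∑ c, ∑ c', W m c * W m c' * (P * acr g (mc m c' - mc m c)) := by
        have h6 : ∀ x, (∑ c, W m c * g (x + mc m c)) ^ 2 =
            ∑ c, ∑ c', W m c * W m c' * (g (x + mc m c) * g (x + mc m c')) := by
          intro x
          rw [sq, Finset.sum_mul_sum]
          refine Finset.sum_congr rfl fun c _ => Finset.sum_congr rfl fun c' _ => ?_
          ring
        rw [Finset.sum_congr rfl fun x _ => h6 x, Finset.sum_comm]
        refine Finset.sum_congr rfl fun c _ => ?_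
        rw [Finset.sum_comm]
        refine Finset.sum_congr rfl fun c' _ => ?_
        rw [← Finset.mul_sum, hac]
      rw [h5]
      simp only [hR]
      rw [Finset.mul_sum]
      refine Finset.sum_le_sum fun c _ => ?_
      rw [Finset.mul_sum]
      refine Finset.sum_le_sum fun c' _ => ?_
      have h7 : |W m c * W m c'| ≤ 1 := by
        rw [abs_mul]
        exact mul_le_one₀ (hW m c) (abs_nonneg _) (hW m c')
      calc W m c * W m c' * (P * acr g (mc m c' - mc m c))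
          ≤ |W m c * W m c' * (P * acr g (mc m c' - mc m c))| := le_abs_self _
        _ = |W m c * W m c'| * (P * |acr g (mc m c' - mc m c)|) := by
            rw [abs_mul (W m c * W m c'), abs_mul (P : ℝ), abs_of_pos hP]
        _ ≤ 1 * (P * |acr g (mc m c' - mc m c)|) :=
            mul_le_mul_of_nonneg_right h7 (by positivity)
        _ = P * |acr g (mc m c' - mc m c)| := one_mul _
    calc T m ^ 2 ≤ (∑ x, G m x ^ 2) * ∑ x, (∑ c, W m c * g (x + mc m c)) ^ 2 := h2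
      _ ≤ P * (P * R m) :=
          mul_le_mul h3 h4 (Finset.sum_nonneg fun _ _ => sq_nonneg _) hP.le
      _ = (P : ℝ) ^ 2 * R m := by ring
  have hRs : (∑ m, R m) ^ 2 ≤ (β ^ 2 * M * (L : ℝ) ^ 2) ^ 2 := by
    have h8 : (∑ m, R m) ^ 2 ≤ (M * (L : ℝ) ^ 2) *
        ∑ m : Fin M, ∑ c : Fin L, ∑ c' : Fin L, acr g (mc m c' - mc m c) ^ 2 := by
      have h9 : ∑ m, R m = ∑ z : Fin M × Fin L × Fin L, |acr g (mc z.1 z.2.2 - mc z.1 z.2.1)| := by
        simp only [hR]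
        rw [Fintype.sum_prod_type]
        refine Finset.sum_congr rfl fun m _ => ?_
        rw [Fintype.sum_prod_type]
      have h10 : ∑ m : Fin M, ∑ c : Fin L, ∑ c' : Fin L, acr g (mc m c' - mc m c) ^ 2 =
          ∑ z : Fin M × Fin L × Fin L, acr g (mc z.1 z.2.2 - mc z.1 z.2.1) ^ 2 := by
        rw [Fintype.sum_prod_type]
        refine Finset.sum_congr rfl fun m _ => ?_
        rw [Fintype.sum_prod_type]
      rw [h9, h10]
      have h11 := sq_sum_le_card_mul_sum_sq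
        (s := (univ : Finset (Fin M × Fin L × Fin L)))
        (f := fun z => |acr g (mc z.1 z.2.2 - mc z.1 z.2.1)|)
      simp only [sq_abs, Finset.card_univ, Fintype.card_prod, Fintype.card_fin] at h11
      refine h11.trans (le_of_eq ?_)
      push_cast
      ring
    calc (∑ m, R m) ^ 2 ≤ (M * (L : ℝ) ^ 2) *
          ∑ m : Fin M, ∑ c : Fin L, ∑ c' : Fin L, acr g (mc m c' - mc m c) ^ 2 := h8
      _ ≤ (M * (L : ℝ) ^ 2) * (β ^ 4 * M * (L : ℝ) ^ 2) :=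
          mul_le_mul_of_nonneg_left h (by positivity)
      _ = (β ^ 2 * M * (L : ℝ) ^ 2) ^ 2 := by ring
  have hRs' : ∑ m, R m ≤ β ^ 2 * M * (L : ℝ) ^ 2 := by
    refine le_of_sq_le_sq ?_ (by positivity)
    exact hRs
  have hfin : (∑ m, T m) ^ 2 ≤ (β * M * L * P) ^ 2 := by
    calc (∑ m, T m) ^ 2 ≤ M * ∑ m, T m ^ 2 := by
          have h12 := sq_sum_le_card_mul_sum_sq (s := (univ : Finset (Fin M))) (f := T)
          simpa using h12
      _ ≤ M * ∑ m, (P : ℝ) ^ 2 * R m :=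
          mul_le_mul_of_nonneg_left (Finset.sum_le_sum fun m _ => hT2 m) (by positivity)
      _ = M * ((P : ℝ) ^ 2 * ∑ m, R m) := by rw [← Finset.mul_sum]
      _ ≤ M * ((P : ℝ) ^ 2 * (β ^ 2 * M * (L : ℝ) ^ 2)) :=
          mul_le_mul_of_nonneg_left (mul_le_mul_of_nonneg_left hRs' (by positivity))
            (by positivity)
      _ = (β * M * L * P) ^ 2 := by ring
  exact abs_le_of_sq_le_sq hfin (by positivity)

theorem av (β : ℝ) (hβ : 0 < β) : ∃ (η : ℝ) (M₀ : ℕ), 0 < η ∧ ∀ M : ℕ, M₀ ≤ M → ∃ L₀ : ℕ, ∀ L : ℕ, L₀ ≤ L →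
    ∀ (P : ℕ) [NeZero P], P = 2 * (M * L) + 1 → ∀ g : ZMod P → ℝ, (∀ x, |g x| ≤ 1) →
      (∀ r, ‖Pool.Agent.H61.HB.ft g r‖ ≤ η) → AvP β M L g := by
  obtain ⟨Q, M₀, hQ⟩ := kq (β ^ 4 / 2) (by positivity)
  refine ⟨Real.sqrt (β ^ 4 / 2 / (Q + 1)), M₀, Real.sqrt_pos.2 (by positivity), ?_⟩
  intro M hM
  obtain ⟨L₀, hL₀⟩ := hQ M hM
  refine ⟨L₀, fun L hL P _ hP g hg hft => ?_⟩
  have h1 := hL₀ L hL P hP
  have h2 := fbd hg (κ := β ^ 4 / 2) (η := Real.sqrt (β ^ 4 / 2 / (Q + 1))) (by positivity)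
    (Real.sqrt_nonneg _) hft M L Q h1
  refine avb hβ.le M L (h2.trans ?_)
  have h3 : (Q : ℝ) * Real.sqrt (β ^ 4 / 2 / (Q + 1)) ^ 2 ≤ β ^ 4 / 2 := by
    rw [Real.sq_sqrt (by positivity)]
    have hQ0 : (0 : ℝ) ≤ Q := Nat.cast_nonneg _
    rw [mul_div_assoc', div_le_iff₀ (by positivity)]
    have h4 : (0 : ℝ) ≤ β ^ 4 / 2 := by positivity
    nlinarith
  have h5 : β ^ 4 / 2 + (Q : ℝ) * Real.sqrt (β ^ 4 / 2 / (Q + 1)) ^ 2 ≤ β ^ 4 := by linarith
  exact mul_le_mul_of_nonneg_right (mul_le_mul_of_nonneg_right h5 (Nat.cast_nonneg _))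
    (by positivity)

end Pool.Agent.H96.BH
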