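import Pool.Agent.H99.HP.Df

/-!
# [H96 BH Trf] From the integers to `ZMod (2 L + 1)`

`P = 2 L + 1`, `S ⊆ [1, L]`, `f x = 1` if `x.val ∈ S` and `0` otherwise, `CC` a set of tuples of numbers in `[1, L]`.
The number of the pairs `(t, c)`, `t ∈ S`, `c ∈ CC` with all `t + c j ∈ S` is `∑ c ∈ CC, ∑ x, f x * ∏ j, f (x + c j)`: for `x` with `x.val = t ∈ S`, `t + c j ≤ 2 L < P`, so
`(x + c j).val = t + c j` (`ZMod.val_add`, `ZMod.val_natCast`, `Nat.mod_eq_of_lt`). `∑ x, f x = card S`. The map `c ↦ (c j : ZMod P)` is injective on tuples with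
entries `≤ L < P`, so the sum over `CC` is the sum over its image `CC'`, `card CC' = card CC`.
-/

set_option autoImplicit false

namespace Pool.Agent.H96.BH

open Finset Pool.Agent.H99.HP

open Classical in
/-- indicator function of `S` in `ZMod P` -/
noncomputable def ind (P : ℕ) (S : Finset ℕ) (x : ZMod P) : ℝ := if x.val ∈ S then 1 else 0

/-- image of a set of tuples in `ZMod P` -/
noncomputable def im (P : ℕ) {k : ℕ} (CC : Finset (Fin k → ℕ)) : Finset (Fin k → ZMod P) := by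
  classical exact CC.image fun c j => (c j : ZMod P)

private theorem sum_ind_mul (L : ℕ) [NeZero (2 * L + 1)] {S : Finset ℕ} (hS : S ⊆ Icc 1 L)
    (g : ZMod (2 * L + 1) → ℝ) :
    ∑ x, ind (2 * L + 1) S x * g x = ∑ t ∈ S, g (t : ZMod (2 * L + 1)) := by
  classical
  have h1 : ∀ x : ZMod (2 * L + 1), ind (2 * L + 1) S x * g x = if x.val ∈ S then g x else 0 := by
    intro x
    unfold ind
    split_ifs <;> simp
  rw [sum_congr rfl (fun x _ => h1 x), ← sum_filter]
  refine sum_nbij' (fun x => x.val) (fun t => (t : ZMod (2 * L + 1))) ?_ ?_ ?_ ?_ ?_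
  · intro x hx
    exact (mem_filter.mp hx).2
  · intro t ht
    have h2 := mem_Icc.mp (hS ht)
    refine mem_filter.mpr ⟨mem_univ _, ?_⟩
    rw [ZMod.val_natCast_of_lt (by omega)]
    exact ht
  · intro x _
    exact ZMod.natCast_zmod_val x
  · intro t ht
    have h2 := mem_Icc.mp (hS ht)
    exact ZMod.val_natCast_of_lt (by omega)
  · intro x _
    rw [ZMod.natCast_zmod_val]

theorem ind_sum (L : ℕ) [NeZero (2 * L + 1)] {S : Finset ℕ} (hS : S ⊆ Icc 1 L) :
    ∑ x, ind (2 * L + 1) S x = S.card := by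
  have h := sum_ind_mul L hS (fun _ => 1)
  simpa using h

theorem im_card (L : ℕ) {k : ℕ} {CC : Finset (Fin k → ℕ)} (hC : ∀ c ∈ CC, ∀ j, c j ∈ Icc 1 L) :
    (im (2 * L + 1) CC).card = CC.card := by
  classical
  unfold im
  refine card_image_of_injOn ?_
  intro c hc c' hc' h
  funext j
  have h1 := mem_Icc.mp (hC c hc j)
  have h2 := mem_Icc.mp (hC c' hc' j)
  have h3 : ((c j : ℕ) : ZMod (2 * L + 1)) = ((c' j : ℕ) : ZMod (2 * L + 1)) := congrFun h j
  have h4 := congrArg ZMod.val h3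
  rwa [ZMod.val_natCast_of_lt (by omega), ZMod.val_natCast_of_lt (by omega)] at h4

theorem cnf_eq (L : ℕ) [NeZero (2 * L + 1)] {k : ℕ} {S : Finset ℕ} (hS : S ⊆ Icc 1 L) {CC : Finset (Fin k → ℕ)}
    (hC : ∀ c ∈ CC, ∀ j, c j ∈ Icc 1 L) :
    ((cnf S CC).card : ℝ) =
      ∑ c ∈ im (2 * L + 1) CC, ∑ x, ind (2 * L + 1) S x * ∏ j, ind (2 * L + 1) S (x + c j) := by
  classical
  have hinj : Set.InjOn (fun (c : Fin k → ℕ) (j : Fin k) => (c j : ZMod (2 * L + 1))) (CC : Set (Fin k → ℕ)) := by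
    intro c hc c' hc' h
    funext j
    have h1 := mem_Icc.mp (hC c hc j)
    have h2 := mem_Icc.mp (hC c' hc' j)
    have h3 : ((c j : ℕ) : ZMod (2 * L + 1)) = ((c' j : ℕ) : ZMod (2 * L + 1)) := congrFun h j
    have h4 := congrArg ZMod.val h3
    rwa [ZMod.val_natCast_of_lt (by omega), ZMod.val_natCast_of_lt (by omega)] at h4
  unfold im
  rw [sum_image (fun c hc c' hc' h => hinj hc hc' h)]
  have h1 : ∀ c ∈ CC, ∑ x, ind (2 * L + 1) S x * ∏ j, ind (2 * L + 1) S (x + (c j : ZMod (2 * L + 1))) =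
      ∑ t ∈ S, if ∀ j, t + c j ∈ S then (1 : ℝ) else 0 := by
    intro c hc
    rw [sum_ind_mul L hS]
    refine sum_congr rfl fun t ht => ?_
    have h2 := mem_Icc.mp (hS ht)
    have h3 : ∀ j, ind (2 * L + 1) S ((t : ZMod (2 * L + 1)) + (c j : ZMod (2 * L + 1))) =
        if t + c j ∈ S then 1 else 0 := by
      intro j
      have h4 := mem_Icc.mp (hC c hc j)
      unfold ind
      rw [← Nat.cast_add, ZMod.val_natCast_of_lt (by omega)]
    rw [prod_congr rfl (fun j _ => h3 j), prod_ite_zero, prod_const_one]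
    simp
  rw [sum_congr rfl h1, sum_comm]
  unfold cnf
  rw [card_filter, sum_product]
  push_cast
  refine sum_congr rfl fun t _ => sum_congr rfl fun c _ => ?_
  split_ifs <;> simp_all

end Pool.Agent.H96.BH
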