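import Pool.Agent.H61.HB.Reg
import Pool.Agent.H61.HB.Gvn
import Pool.Agent.H61.HB.Str
import Pool.Agent.H61.HB.Boh
import Pool.Agent.H61.HB.Cnv
import Pool.Agent.H96.BH.Trf

/-!
# [H96 BH Cor] A positive proportion of the tuples of a dense subset of a power of a Bohr set, `Pool.Agent.H99.HP.Cor`

From the regularity lemma `Pool.Agent.H61.HB.reg`, the telescoping `gvn`, the lower bound `str`, the size of Bohr sets `bp_card` and the
conversion `cnv` (with `Q = 1`).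
-/

set_option autoImplicit false

namespace Pool.Agent.H96.BH

open Finset

/-- the tuple `(a, a + c_1, .., a + c_k)` -/
private def sh {P k : ℕ} (p : ZMod P × (Fin k → ZMod P)) : Fin (k + 1) → ZMod P :=
  Fin.cons p.1 (fun j => p.1 + p.2 j)

private theorem sh_inj {P k : ℕ} : Function.Injective (sh : ZMod P × (Fin k → ZMod P) → _) := by
  rintro ⟨a, c⟩ ⟨a', c'⟩ h
  have h0 : a = a' := by
    have := congrFun h 0
    simpa [sh] using this
  subst h0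
  have h1 : c = c' := by
    funext j
    have := congrFun h j.succ
    simpa [sh] using this
  rw [h1]

private theorem sh_sum {P k : ℕ} [NeZero P] (f : ZMod P → ℝ) (p : ZMod P × (Fin k → ZMod P)) :
    ∑ t, ∏ j, f (t + sh p j) = ∑ t, f t * ∏ j, f (t + p.2 j) := by
  rw [← Equiv.sum_comp (Equiv.addRight p.1) (fun t => f t * ∏ j, f (t + p.2 j))]
  refine sum_congr rfl fun t _ => ?_
  rw [Fin.prod_univ_succ]
  simp [sh, add_assoc]

private theorem lower {P : ℕ} [NeZero P] {k : ℕ} {f u : ZMod P → ℝ} (hf : ∀ t, 0 ≤ f t ∧ f t ≤ 1)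
    (hu : ∀ t, 0 ≤ u t ∧ u t ≤ 1) {η δ κ : ℝ}
    (hη : ∀ r, ‖Pool.Agent.H61.HB.ft (fun t => f t - u t) r‖ ≤ η) (hδ : 0 ≤ δ) (hκ : 0 ≤ κ)
    (hsum : δ * P ≤ ∑ t, u t) (B : Finset (ZMod P))
    (hinv : ∀ a ∈ B, ∑ t, (u (t + a) - u t) ^ 2 ≤ κ ^ 2 * P) (CC : Finset (Fin k → ZMod P))
    (hCC : ∀ c ∈ CC, ∀ j, c j ∈ B) :
    (CC.card : ℝ) * ((δ ^ (k + 1) - k * κ) * P) - (k + 1 : ℕ) * η * (P : ℝ) ^ (k + 1) ≤
      ∑ c ∈ CC, ∑ t, f t * ∏ j, f (t + c j) := by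
  classical
  have hP : (0 : ℝ) < P := by exact_mod_cast Nat.pos_of_ne_zero (NeZero.ne P)
  have h1 := Pool.Agent.H61.HB.gvn f u η hf hu hη (k + 1) (fun _ => 1) (fun _ => by simp)
  set X : Finset (ZMod P × (Fin k → ZMod P)) := univ ×ˢ CC with hX
  -- comparison over the subfamily
  have h2 : ∑ p ∈ X, (∑ t, ∏ j, u (t + sh p j) - ∑ t, ∏ j, f (t + sh p j)) ≤
      (k + 1 : ℕ) * η * (P : ℝ) ^ (k + 1 + 1) := by
    refine le_trans ?_ h1
    have h3 : ∑ p ∈ X, (∑ t, ∏ j, u (t + sh p j) - ∑ t, ∏ j, f (t + sh p j)) ≤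
        ∑ C ∈ X.image sh, |∑ t, 1 * (∏ j, f (t + C j) - ∏ j, u (t + C j))| := by
      rw [sum_image (fun p _ q _ h => sh_inj h)]
      refine sum_le_sum fun p _ => ?_
      have h4 : ∑ t, 1 * (∏ j, f (t + sh p j) - ∏ j, u (t + sh p j)) =
          ∑ t, ∏ j, f (t + sh p j) - ∑ t, ∏ j, u (t + sh p j) := by
        rw [← sum_sub_distrib]
        exact sum_congr rfl fun t _ => one_mul _
      rw [h4]
      exact (le_abs_self _).trans_eq (abs_sub_comm _ _)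
    refine h3.trans ?_
    exact sum_le_sum_of_subset_of_nonneg (subset_univ _) (fun _ _ _ => abs_nonneg _)
  have h5 : ∑ p ∈ X, ∑ t, ∏ j, f (t + sh p j) = P * ∑ c ∈ CC, ∑ t, f t * ∏ j, f (t + c j) := by
    rw [sum_congr rfl (fun p _ => sh_sum f p), hX, sum_product]
    simp
  have h6 : (P : ℝ) * (CC.card * ((δ ^ (k + 1) - k * κ) * P)) ≤ ∑ p ∈ X, ∑ t, ∏ j, u (t + sh p j) := by
    have h7 : ∀ p ∈ X, (δ ^ (k + 1) - k * κ) * P ≤ ∑ t, ∏ j, u (t + sh p j) := by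
      intro p hp
      refine Pool.Agent.H61.HB.str k u hu δ κ hδ hκ hsum B hinv (sh p) ?_
      intro j
      have h8 := hCC p.2 (mem_product.mp hp).2 j
      have h9 : sh p j.succ - sh p 0 = p.2 j := by simp [sh]
      rw [h9]
      exact h8
    have h10 := card_nsmul_le_sum X _ _ h7
    rw [hX, card_product, nsmul_eq_mul] at h10
    have h11 : ((univ : Finset (ZMod P)).card : ℝ) = P := by
      rw [card_univ, ZMod.card]
    push_cast at h10
    rw [h11] at h10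
    calc (P : ℝ) * (CC.card * ((δ ^ (k + 1) - k * κ) * P)) = P * CC.card * ((δ ^ (k + 1) - k * κ) * P) := by ring
      _ ≤ _ := h10
  rw [sum_sub_distrib, h5] at h2
  have h12 : (P : ℝ) * (CC.card * ((δ ^ (k + 1) - k * κ) * P) - (k + 1 : ℕ) * η * (P : ℝ) ^ (k + 1)) ≤
      P * ∑ c ∈ CC, ∑ t, f t * ∏ j, f (t + c j) := by
    have h13 : (P : ℝ) * ((k + 1 : ℕ) * η * (P : ℝ) ^ (k + 1)) = (k + 1 : ℕ) * η * (P : ℝ) ^ (k + 1 + 1) := by
      ring
    rw [mul_sub, h13]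
    linarith
  exact le_of_mul_le_mul_left h12 hP

private theorem mem_iff {L D : ℕ} {θ : Fin D → ℝ} {h : ℕ} : h ∈ Pool.Agent.H99.HP.bohr L D θ ↔
    (1 ≤ h ∧ h ≤ L) ∧ ∀ i, ∃ z : ℤ, |(h : ℝ) * θ i - z| ≤ 1 / 4 := by
  unfold Pool.Agent.H99.HP.bohr
  rw [mem_filter, mem_Icc]
  refine and_congr_right fun _ => forall_congr' fun i => ?_
  rw [mul_comm (θ i)]
  constructor
  · intro h1
    exact ⟨_, h1⟩
  · rintro ⟨z, hz⟩
    exact (round_le _ z).trans hz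

theorem cor : Pool.Agent.H99.HP.Cor := by
  intro k d ε hd hd1 hε hε1
  set δ : ℝ := d / 3 with hδd
  have hδ : 0 < δ := by positivity
  set κ₀ : ℝ := δ ^ (k + 1) / (4 * (k + 1)) with hκ₀
  have hκ₀p : 0 < κ₀ := by positivity
  set Φ : ℕ → ℕ → ℝ := fun a b => δ ^ (k + 1) * ε / (4 * (k + 1) * (3 * 2 ^ (b * a)) ^ k) with hΦ
  obtain ⟨D₀, hreg⟩ := Pool.Agent.H61.HB.reg κ₀ hκ₀p Φ (fun a b => by simp only [hΦ]; positivity)
  obtain ⟨D', hcnv⟩ := Pool.Agent.H61.HB.cnv 1 D₀ le_rfl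
  set M : ℕ := 2 ^ (D₀ * D₀) with hM
  have hM1 : 1 ≤ M := Nat.one_le_two_pow
  have hMr : (1 : ℝ) ≤ M := by exact_mod_cast hM1
  set β : ℝ := 1 / (3 * M) with hβ
  have hβp : 0 < β := by positivity
  refine ⟨D', β, δ ^ (k + 1) * ε * β ^ k / 2, 2 * M, hβp, by positivity, ?_⟩
  intro L hL S hS hSd
  have hL1 : 1 ≤ L := by omega
  haveI : NeZero (2 * L + 1) := ⟨by omega⟩
  set P : ℕ := 2 * L + 1 with hP
  have hPr : (0 : ℝ) < P := by exact_mod_cast (by omega : 0 < P)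
  have hPL : (P : ℝ) = 2 * L + 1 := by rw [hP]; push_cast; ring
  have hLr : (1 : ℝ) ≤ L := by exact_mod_cast hL1
  have hf : ∀ t, 0 ≤ ind P S t ∧ ind P S t ≤ 1 := by
    intro t
    unfold ind
    split_ifs <;> norm_num
  obtain ⟨u, a, n, Λ, ha, hn, hΛ, hu, hsum, hinv, hη⟩ := hreg P (ind P S) hf
  obtain ⟨θ, hθ⟩ := hcnv L P (by rw [Nat.div_one]) Λ n (hΛ.trans ha) hn
  have hmem : ∀ h : ℕ, h ∈ Pool.Agent.H99.HP.bohr L D' θ ↔ ∃ b ∈ Pool.Agent.H61.HB.bp Λ n, h = b.val := by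
    intro h
    rw [mem_iff]
    constructor
    · rintro ⟨⟨h1, h2⟩, h3⟩
      obtain ⟨b, hb, hb2⟩ := (hθ h h1 h2).mp h3
      exact ⟨b, hb, by rw [hb2, one_mul]⟩
    · rintro ⟨b, hb, hb2⟩
      have h4 : 1 ≤ b.val ∧ 2 * b.val < P := by
        unfold Pool.Agent.H61.HB.bp at hb
        exact (mem_filter.mp hb).2
      have h5 : 1 ≤ h ∧ h ≤ L := by omega
      exact ⟨h5, (hθ h h5.1 h5.2).mpr ⟨b, hb, by rw [hb2, one_mul]⟩⟩
  have hcard : (Pool.Agent.H99.HP.bohr L D' θ).card = (Pool.Agent.H61.HB.bp Λ n).card := by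
    refine card_nbij' (fun h => (h : ZMod P)) (fun b => b.val) ?_ ?_ ?_ ?_
    · intro h hh
      obtain ⟨b, hb, hb2⟩ := (hmem h).mp hh
      show (h : ZMod P) ∈ _
      rw [hb2, ZMod.natCast_zmod_val]
      exact hb
    · intro b hb
      exact (hmem _).mpr ⟨b, hb, rfl⟩
    · intro h hh
      obtain ⟨b, hb, hb2⟩ := (hmem h).mp hh
      show (h : ZMod P).val = h
      rw [hb2, ZMod.natCast_zmod_val]
    · intro b _
      exact ZMod.natCast_zmod_val b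
  have hexp : n * Λ.card ≤ n * a := Nat.mul_le_mul_left _ hΛ
  have hexp2 : n * a ≤ D₀ * D₀ := Nat.mul_le_mul hn ha
  have hbp : P ≤ 3 * 2 ^ (n * Λ.card) * (Pool.Agent.H61.HB.bp Λ n).card := by
    refine Pool.Agent.H61.HB.bp_card ⟨L, rfl⟩ Λ n ?_
    have h1 : 2 ^ (n * Λ.card) ≤ M := Nat.pow_le_pow_right (by norm_num) (hexp.trans hexp2)
    omega
  set N : ℝ := 3 * 2 ^ (n * a) with hN
  have hNp : 0 < N := by positivity
  have hNM : N ≤ 3 * M := by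
    rw [hN, hM]
    push_cast
    have : (2 : ℝ) ^ (n * a) ≤ 2 ^ (D₀ * D₀) := pow_le_pow_right₀ (by norm_num) hexp2
    linarith
  set b : ℝ := ((Pool.Agent.H61.HB.bp Λ n).card : ℝ) with hb
  have hb0 : 0 ≤ b := Nat.cast_nonneg _
  have hPb : (P : ℝ) ≤ N * b := by
    have h1 : (P : ℝ) ≤ 3 * 2 ^ (n * Λ.card) * b := by
      rw [hb]
      exact_mod_cast hbp
    have h2 : (2 : ℝ) ^ (n * Λ.card) ≤ 2 ^ (n * a) := pow_le_pow_right₀ (by norm_num) hexp
    calc (P : ℝ) ≤ 3 * 2 ^ (n * Λ.card) * b := h1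
      _ ≤ 3 * 2 ^ (n * a) * b := by gcongr
      _ = N * b := by rw [hN]
  have hPNb : P / N ≤ b := by
    rw [div_le_iff₀ hNp]
    linarith [mul_comm N b]
  have hβN : β * P ≤ P / N := by
    rw [hβ, one_div, inv_mul_eq_div]
    exact div_le_div_of_nonneg_left hPr.le hNp hNM
  refine ⟨θ, ?_, ?_⟩
  · rw [hcard]
    calc β * L ≤ β * P := by
          refine mul_le_mul_of_nonneg_left ?_ hβp.le
          rw [hPL]
          linarith
      _ ≤ P / N := hβN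
      _ ≤ b := hPNb
  · intro CC hCC hCd
    rw [hcard] at hCd
    have hC1 : ∀ c ∈ CC, ∀ j, c j ∈ Pool.Agent.H99.HP.bohr L D' θ := fun c hc j =>
      Fintype.mem_piFinset.mp (hCC hc) j
    have hC2 : ∀ c ∈ CC, ∀ j, c j ∈ Icc 1 L := fun c hc j =>
      (mem_filter.mp (hC1 c hc j)).1
    rw [cnf_eq L hS hC2]
    have hC3 : ∀ c ∈ im P CC, ∀ j, c j ∈ Pool.Agent.H61.HB.bohr Λ n := by
      intro c hc j
      unfold im at hc
      obtain ⟨c', hc', rfl⟩ := mem_image.mp hc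
      obtain ⟨v, hv, hv2⟩ := (hmem _).mp (hC1 c' hc' j)
      show ((c' j : ℕ) : ZMod P) ∈ _
      rw [hv2, ZMod.natCast_zmod_val]
      unfold Pool.Agent.H61.HB.bp at hv
      exact (mem_filter.mp hv).1
    have hsu : δ * P ≤ ∑ t, u t := by
      rw [hsum, ind_sum L hS, hPL, hδd]
      nlinarith
    have hlow := lower hf hu hη hδ.le hκ₀p.le hsu (Pool.Agent.H61.HB.bohr Λ n) hinv (im P CC) hC3
    rw [im_card L hC2] at hlow
    refine le_trans ?_ hlow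
    set C : ℝ := (CC.card : ℝ) with hC
    have hCN : ε * (P / N) ^ k ≤ C := by
      refine le_trans ?_ hCd
      gcongr
    have hk1 : (k : ℝ) * κ₀ ≤ δ ^ (k + 1) / 4 := by
      rw [hκ₀]
      have h1 : (k : ℝ) * (δ ^ (k + 1) / (4 * (k + 1))) = δ ^ (k + 1) / 4 * (k / (k + 1)) := by
        field_simp
      rw [h1]
      have h2 : (k : ℝ) / (k + 1) ≤ 1 := by
        rw [div_le_one (by positivity)]
        linarith
      exact mul_le_of_le_one_right (by positivity) h2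
    have hk2 : ((k + 1 : ℕ) : ℝ) * Φ a n * (P : ℝ) ^ (k + 1) = δ ^ (k + 1) / 4 * P * (ε * (P / N) ^ k) := by
      simp only [hΦ]
      rw [← hN, div_pow (P : ℝ) N k]
      have hNk : N ^ k ≠ 0 := (pow_pos hNp k).ne'
      have hk4 : ((k : ℝ) + 1) ≠ 0 := by positivity
      push_cast
      generalize N ^ k = W at hNk ⊢
      field_simp
      ring
    have hk3 : ((k + 1 : ℕ) : ℝ) * Φ a n * (P : ℝ) ^ (k + 1) ≤ δ ^ (k + 1) / 4 * P * C := by
      rw [hk2]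
      gcongr
    have hC0 : 0 ≤ C := Nat.cast_nonneg _
    have h3 : C * (δ ^ (k + 1) * P * (1 / 2)) ≤
        C * ((δ ^ (k + 1) - k * κ₀) * P) - ((k + 1 : ℕ) : ℝ) * Φ a n * (P : ℝ) ^ (k + 1) := by
      have h4 : C * ((δ ^ (k + 1) - δ ^ (k + 1) / 4) * P) ≤ C * ((δ ^ (k + 1) - k * κ₀) * P) := by
        gcongr
      have h5 : C * ((δ ^ (k + 1) - δ ^ (k + 1) / 4) * P) - δ ^ (k + 1) / 4 * P * C =
          C * (δ ^ (k + 1) * P * (1 / 2)) := by ring
      linarith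
    refine le_trans ?_ h3
    have h6 : ε * (β * P) ^ k ≤ C := by
      refine le_trans ?_ hCN
      gcongr
    calc δ ^ (k + 1) * ε * β ^ k / 2 * (L : ℝ) ^ (k + 1)
        ≤ δ ^ (k + 1) * ε * β ^ k / 2 * (P : ℝ) ^ (k + 1) := by
          have : (L : ℝ) ≤ P := by rw [hPL]; linarith
          gcongr
      _ = ε * (β * P) ^ k * (δ ^ (k + 1) * P * (1 / 2)) := by ring
      _ ≤ C * (δ ^ (k + 1) * P * (1 / 2)) := by gcongr

end Pool.Agent.H96.BH
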