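import Pool.Agent.H96.BH.DfD

/-!
# [H96 BH DIR] Dirichlet: many multiples of every tuple are in the Bohr set

`W = 2^(n * (card Λ * k))`. Map `m ∈ range (M + 1)` to the function `(r, j) ↦ ⌊2^n * Int.fract (r.val * m * a j / P)⌋₊ ∈ Fin (2^n)` on `Λ × Fin k` (`W` values). Some fibre has at least
`(M + 1) / W` elements (`Finset.exists_le_card_fiber_of_mul_le_card_of_maps_to` or the counting as in the proof of `Pool.Agent.H61.HB.bohr_card`). Let `m₀` be its least element; for every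
other element `m` the difference `m - m₀ ∈ [1, M]` has `r.val * (m - m₀) * a j / P` within `2^(-n)` of an integer. With `h = (((m - m₀) * a j : ℕ) : ZMod P)`, `h.val = (m - m₀) * a j - P * e`
(`ZMod.val_natCast`, `Nat.div_add_mod`), so `r.val * h.val / P` is within `2^(-n)` of an integer: `h ∈ bohr Λ n`. The number of the differences is at least
`(M + 1) / W - 1 ≥ M / (2 W)` since `M ≥ 2 W`.
-/

set_option autoImplicit false

namespace Pool.Agent.H96.BH

open Finset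

private theorem P_pos {P : ℕ} [NeZero P] : (0 : ℝ) < P := by
  exact_mod_cast Nat.pos_of_ne_zero (NeZero.ne P)

private theorem val_cast {P : ℕ} [NeZero P] (x : ℕ) :
    ∃ e : ℤ, ((((x : ℕ) : ZMod P).val : ℕ) : ℝ) = x - P * e := by
  refine ⟨((x / P : ℕ) : ℤ), ?_⟩
  rw [ZMod.val_natCast]
  have h := Nat.div_add_mod x P
  have h2 : ((P * (x / P) + x % P : ℕ) : ℝ) = (x : ℝ) := by rw [h]
  rw [Nat.cast_add, Nat.cast_mul] at h2
  rw [Int.cast_natCast]
  linarith

private theorem mem_bohr' {P : ℕ} [NeZero P] {Λ : Finset (ZMod P)} {n : ℕ} {h : ZMod P} :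
    h ∈ Pool.Agent.H61.HB.bohr Λ n ↔ ∀ r ∈ Λ, ∃ z : ℤ, |(r.val : ℝ) * h.val / P - z| ≤ 1 / 2 ^ n := by
  classical
  simp [Pool.Agent.H61.HB.bohr]

open Classical in
theorem dir {P : ℕ} [NeZero P] (Λ : Finset (ZMod P)) (n k M : ℕ) (a : Fin k → ℕ)
    (hM : 2 * 2 ^ (n * (Λ.card * k)) ≤ M) :
    (M : ℝ) / (2 * 2 ^ (n * (Λ.card * k))) ≤
      (((Icc 1 M).filter fun m => ∀ j, ((m * a j : ℕ) : ZMod P) ∈ Pool.Agent.H61.HB.bohr Λ n).card : ℝ) := by
  have h2n : (0 : ℝ) < 2 ^ n := by positivity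
  have hlt : ∀ (y : ℝ), Nat.floor ((2 : ℝ) ^ n * Int.fract y) < 2 ^ n := by
    intro y
    rw [Nat.floor_lt (by have := Int.fract_nonneg y; positivity)]
    have h1 := Int.fract_lt_one y
    push_cast
    nlinarith
  obtain ⟨φ, hφ⟩ : ∃ φ : ℕ → (Λ × Fin k → Fin (2 ^ n)), ∀ m rj, ((φ m rj : Fin (2 ^ n)) : ℕ) =
      Nat.floor ((2 : ℝ) ^ n * Int.fract ((rj.1.1.val : ℝ) * (m * a rj.2 : ℕ) / P)) :=
    ⟨fun m rj => ⟨_, hlt ((rj.1.1.val : ℝ) * (m * a rj.2 : ℕ) / P)⟩, fun m rj => rfl⟩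
  obtain ⟨W, hW⟩ : ∃ W : ℕ, W = 2 ^ (n * (Λ.card * k)) := ⟨_, rfl⟩
  have hWr : ((2 : ℝ) ^ (n * (Λ.card * k))) = (W : ℝ) := by rw [hW]; push_cast; ring
  have hWpos : 0 < W := by rw [hW]; positivity
  have hWr0 : (0 : ℝ) < W := by exact_mod_cast hWpos
  rw [← hW] at hM
  rw [hWr]
  have hcW : (Finset.univ : Finset (Λ × Fin k → Fin (2 ^ n))).card = W := by
    rw [Finset.card_univ, Fintype.card_fun, Fintype.card_fin, Fintype.card_prod, Fintype.card_coe,
      Fintype.card_fin, ← pow_mul, hW]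
  have huniv : (Finset.univ : Finset (Λ × Fin k → Fin (2 ^ n))).Nonempty := by
    rw [← Finset.card_pos, hcW]
    exact hWpos
  obtain ⟨c, -, hc⟩ := Finset.exists_le_card_fiber_of_nsmul_le_card_of_maps_to (f := φ)
    (s := Finset.range (M + 1)) (t := (Finset.univ : Finset (Λ × Fin k → Fin (2 ^ n))))
    (b := ((M : ℝ) + 1) / W) (fun _ _ => Finset.mem_univ _) huniv (by
      rw [hcW, nsmul_eq_mul, mul_div_cancel₀ _ hWr0.ne', Finset.card_range]
      push_cast
      exact le_rfl)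
  obtain ⟨Fb, hFb⟩ : ∃ Fb, Fb = (Finset.range (M + 1)).filter (fun x => φ x = c) := ⟨_, rfl⟩
  rw [← hFb] at hc
  have hne : Fb.Nonempty := by
    rw [← Finset.card_pos]
    have : (0 : ℝ) < (Fb.card : ℝ) := lt_of_lt_of_le (by positivity) hc
    exact_mod_cast this
  obtain ⟨m₀, hm₀⟩ : ∃ m₀, m₀ = Fb.min' hne := ⟨_, rfl⟩
  have hm₀F : m₀ ∈ Fb := by rw [hm₀]; exact Finset.min'_mem _ _
  have hmin : ∀ m ∈ Fb, m₀ ≤ m := fun m hm => by rw [hm₀]; exact Finset.min'_le _ _ hm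
  have hinj : (Fb.erase m₀).card ≤ ((Icc 1 M).filter fun m => ∀ j, ((m * a j : ℕ) : ZMod P) ∈
      Pool.Agent.H61.HB.bohr Λ n).card := by
    refine Finset.card_le_card_of_injOn (fun m => m - m₀) ?_ ?_
    · intro m hm
      rw [Finset.mem_coe, Finset.mem_erase] at hm
      have hle := hmin m hm.2
      have hmF := hm.2
      have hm0F := hm₀F
      rw [hFb, Finset.mem_filter, Finset.mem_range] at hmF hm0F
      have hlt2 : m₀ < m := lt_of_le_of_ne hle (Ne.symm hm.1)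
      rw [Finset.mem_coe, Finset.mem_filter, Finset.mem_Icc]
      refine ⟨⟨Nat.sub_pos_of_lt hlt2, (Nat.sub_le m m₀).trans (Nat.lt_succ_iff.1 hmF.1)⟩, fun j => ?_⟩
      rw [mem_bohr']
      intro r hr
      have e1 : φ m (⟨r, hr⟩, j) = φ m₀ (⟨r, hr⟩, j) := by rw [hmF.2, hm0F.2]
      have e2 : Nat.floor ((2 : ℝ) ^ n * Int.fract ((r.val : ℝ) * (m * a j : ℕ) / P)) =
          Nat.floor ((2 : ℝ) ^ n * Int.fract ((r.val : ℝ) * (m₀ * a j : ℕ) / P)) := by
        rw [← hφ m (⟨r, hr⟩, j), ← hφ m₀ (⟨r, hr⟩, j), e1]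
      obtain ⟨y, hy⟩ : ∃ y, y = (r.val : ℝ) * (m * a j : ℕ) / P := ⟨_, rfl⟩
      obtain ⟨y', hy'⟩ : ∃ y', y' = (r.val : ℝ) * (m₀ * a j : ℕ) / P := ⟨_, rfl⟩
      rw [← hy, ← hy'] at e2
      have b1 := Nat.lt_floor_add_one ((2 : ℝ) ^ n * Int.fract y)
      have b2 := Nat.lt_floor_add_one ((2 : ℝ) ^ n * Int.fract y')
      have b3 := Nat.floor_le (a := (2 : ℝ) ^ n * Int.fract y)
        (by have := Int.fract_nonneg y; positivity)
      have b4 := Nat.floor_le (a := (2 : ℝ) ^ n * Int.fract y')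
        (by have := Int.fract_nonneg y'; positivity)
      rw [e2] at b1 b3
      have hab : |(2 : ℝ) ^ n * (Int.fract y - Int.fract y')| ≤ 1 := by
        rw [abs_le]
        constructor <;> linarith
      obtain ⟨e, he⟩ := val_cast (P := P) ((m - m₀) * a j)
      refine ⟨⌊y⌋ - ⌊y'⌋ - r.val * e, ?_⟩
      have he' : ((((m - m₀) * a j : ℕ) : ZMod P).val : ℝ) = m * a j - m₀ * a j - P * e := by
        rw [he]
        push_cast [Nat.cast_sub hle]
        ring
      have e3 : (r.val : ℝ) * (((m - m₀) * a j : ℕ) : ZMod P).val / P - ((⌊y⌋ - ⌊y'⌋ - r.val * e : ℤ) : ℝ) =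
          Int.fract y - Int.fract y' := by
        rw [he']
        push_cast at hy hy' ⊢
        have f1 : (r.val : ℝ) * (m * a j - m₀ * a j - P * e) / P = y - y' - r.val * e := by
          rw [hy, hy']
          have := (P_pos (P := P)).ne'
          field_simp
        rw [f1]
        unfold Int.fract
        ring
      rw [e3, le_div_iff₀ h2n, mul_comm, ← abs_of_pos h2n, ← abs_mul]
      exact hab
    · intro x hx y hy hxy
      rw [Finset.mem_coe, Finset.mem_erase] at hx hy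
      have h1 := hmin x hx.2
      have h2 := hmin y hy.2
      simp only at hxy
      omega
  rw [Finset.card_erase_of_mem hm₀F] at hinj
  have h3 : (Fb.card : ℝ) ≤ ((Icc 1 M).filter fun m => ∀ j, ((m * a j : ℕ) : ZMod P) ∈
      Pool.Agent.H61.HB.bohr Λ n).card + 1 := by
    have : Fb.card ≤ ((Icc 1 M).filter fun m => ∀ j, ((m * a j : ℕ) : ZMod P) ∈
      Pool.Agent.H61.HB.bohr Λ n).card + 1 := by omega
    exact_mod_cast this
  have h4 : (M : ℝ) / (2 * W) + 1 ≤ ((M : ℝ) + 1) / W := by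
    have hMr : (2 : ℝ) * W ≤ M := by exact_mod_cast hM
    rw [div_add_one (by positivity), div_le_div_iff₀ (by positivity) hWr0]
    nlinarith
  linarith

end Pool.Agent.H96.BH
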