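import Pool.Agent.H61.HB.FtC
import Pool.Agent.H61.HB.FtB

/-!
# [H96 BH LB] Lower bound for one configuration

`g = f - u`. (i) `∏ j, u (x + c j) ≥ u x ^ k - ∑ j, |u (x + c j) - u x|` (numbers in `[0, 1]`, induction); (ii) `∑ x, |u (x + b) - u x| ≤ κ P` for `b ∈ B`
(`sq_sum_le_card_mul_sum_sq`, `hinv`), so `∑ x, f x * ∏ j, u (x + c j) ≥ ∑ x, f x * u x ^ k - k κ P = ∑ x, u x ^ (k+1) + ∑ x, g x * u x ^ k - k κ P`;
(iii) for `b ∈ B`: `∑ x, g x * u x ^ k ≥ ∑ x, g x * u (x + b) ^ k - k κ P` (`|g| ≤ 1`, `|s^k - t^k| ≤ k |s - t|` on `[0, 1]`); sum over `b ∈ B`: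
`∑ b ∈ B, ∑ x, g x * u (x + b) ^ k ≥ - ∑ c, |∑ t, u t ^ k * g (t + c)| ≥ - η P ^ 2` (`Pool.Agent.H61.HB.bil` in `H61/HB/FtC`, `x = t - b`, `c = -b`);
(iv) `∑ x, u x ^ (k+1) ≥ P * ((∑ u) / P) ^ (k+1) ≥ δ^(k+1) P` (`inner_le..`: `inner_le_nnorm_mul_nnorm` is not needed, `Real.pow_arith_mean_le_arith_mean_pow` or
`pow_sum_div_card_le_sum_pow`).
-/

set_option autoImplicit false

namespace Pool.Agent.H96.BH

open Finset

private theorem prod_ge {ι : Type*} (s : Finset ι) (a : ι → ℝ) (b : ℝ) (hb : 0 ≤ b ∧ b ≤ 1)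
    (ha : ∀ j, 0 ≤ a j ∧ a j ≤ 1) :
    b ^ s.card - ∑ j ∈ s, |a j - b| ≤ ∏ j ∈ s, a j := by
  classical
  induction s using Finset.induction_on with
  | empty => simp
  | insert i s hi ih =>
    rw [Finset.card_insert_of_notMem hi, Finset.sum_insert hi, Finset.prod_insert hi]
    have hp0 : 0 ≤ ∏ j ∈ s, a j := Finset.prod_nonneg fun j _ => (ha j).1
    have hp1 : ∏ j ∈ s, a j ≤ 1 := Finset.prod_le_one (fun j _ => (ha j).1) fun j _ => (ha j).2
    have hS : 0 ≤ ∑ j ∈ s, |a j - b| := Finset.sum_nonneg fun j _ => abs_nonneg _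
    have h1 : b * (b ^ s.card - ∑ j ∈ s, |a j - b|) ≤ b * ∏ j ∈ s, a j :=
      mul_le_mul_of_nonneg_left ih hb.1
    have h2 : b * ∑ j ∈ s, |a j - b| ≤ ∑ j ∈ s, |a j - b| := by
      have := mul_le_mul_of_nonneg_right hb.2 hS
      linarith
    have h3 : -|a i - b| ≤ a i - b := neg_abs_le _
    have h4 : -|a i - b| ≤ (a i - b) * ∏ j ∈ s, a j := by
      have h5 : -|a i - b| * ∏ j ∈ s, a j ≤ (a i - b) * ∏ j ∈ s, a j :=
        mul_le_mul_of_nonneg_right h3 hp0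
      have h6 : |a i - b| * ∏ j ∈ s, a j ≤ |a i - b| * 1 :=
        mul_le_mul_of_nonneg_left hp1 (abs_nonneg _)
      linarith
    have h7 : b ^ (s.card + 1) = b * b ^ s.card := by ring
    rw [h7]
    nlinarith [h1, h2, h4]

private theorem pow_sub {s t : ℝ} (hs : 0 ≤ s ∧ s ≤ 1) (ht : 0 ≤ t ∧ t ≤ 1) (k : ℕ) :
    |s ^ k - t ^ k| ≤ k * |s - t| := by
  induction k with
  | zero => simp
  | succ k ih =>
    have h1 : s ^ (k + 1) - t ^ (k + 1) = s * (s ^ k - t ^ k) + (s - t) * t ^ k := by ring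
    rw [h1]
    have h2 : |s * (s ^ k - t ^ k)| ≤ k * |s - t| := by
      rw [abs_mul, abs_of_nonneg hs.1]
      calc s * |s ^ k - t ^ k| ≤ 1 * |s ^ k - t ^ k| :=
            mul_le_mul_of_nonneg_right hs.2 (abs_nonneg _)
        _ ≤ k * |s - t| := by rw [one_mul]; exact ih
    have h3 : |(s - t) * t ^ k| ≤ |s - t| := by
      rw [abs_mul, abs_of_nonneg (pow_nonneg ht.1 k)]
      calc |s - t| * t ^ k ≤ |s - t| * 1 :=
            mul_le_mul_of_nonneg_left (pow_le_one₀ ht.1 ht.2) (abs_nonneg _)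
        _ = |s - t| := mul_one _
    calc |s * (s ^ k - t ^ k) + (s - t) * t ^ k|
        ≤ |s * (s ^ k - t ^ k)| + |(s - t) * t ^ k| := abs_add_le _ _
      _ ≤ k * |s - t| + |s - t| := add_le_add h2 h3
      _ = ((k + 1 : ℕ) : ℝ) * |s - t| := by push_cast; ring

private theorem l1_le {P : ℕ} [NeZero P] {u : ZMod P → ℝ} {κ : ℝ} (hκ : 0 ≤ κ) {b : ZMod P}
    (h : ∑ x, (u (x + b) - u x) ^ 2 ≤ κ ^ 2 * P) : ∑ x, |u (x + b) - u x| ≤ κ * P := by
  have hP : (0 : ℝ) ≤ P := Nat.cast_nonneg _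
  have h1 : (∑ x, |u (x + b) - u x|) ^ 2 ≤ (P : ℝ) * ∑ x, |u (x + b) - u x| ^ 2 := by
    have h2 := sq_sum_le_card_mul_sum_sq (s := (Finset.univ : Finset (ZMod P)))
      (f := fun x => |u (x + b) - u x|)
    rw [Finset.card_univ, ZMod.card] at h2
    exact h2
  have h3 : ∑ x, |u (x + b) - u x| ^ 2 = ∑ x, (u (x + b) - u x) ^ 2 :=
    Finset.sum_congr rfl fun x _ => sq_abs _
  rw [h3] at h1
  have h4 : (∑ x, |u (x + b) - u x|) ^ 2 ≤ (κ * P) ^ 2 := by
    calc (∑ x, |u (x + b) - u x|) ^ 2 ≤ (P : ℝ) * ∑ x, (u (x + b) - u x) ^ 2 := h1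
      _ ≤ (P : ℝ) * (κ ^ 2 * P) := mul_le_mul_of_nonneg_left h hP
      _ = (κ * P) ^ 2 := by ring
  exact le_of_sq_le_sq h4 (mul_nonneg hκ hP)

private theorem inner_pow {P : ℕ} [NeZero P] (k : ℕ) {u : ZMod P → ℝ}
    (hu : ∀ x, 0 ≤ u x ∧ u x ≤ 1) :
    (∑ x, u x) ^ (k + 1) / (P : ℝ) ^ k ≤ ∑ x, u x ^ (k + 1) := by
  have h := pow_sum_div_card_le_sum_pow (s := (Finset.univ : Finset (ZMod P))) (f := u)
    (fun a _ => (hu a).1) k
  rw [Finset.card_univ, ZMod.card] at h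
  exact h

theorem lb {P : ℕ} [NeZero P] (k : ℕ) {f u : ZMod P → ℝ} (hf : ∀ x, 0 ≤ f x ∧ f x ≤ 1)
    (hu : ∀ x, 0 ≤ u x ∧ u x ≤ 1) {δ κ η : ℝ} (hδ : 0 ≤ δ) (hκ : 0 ≤ κ)
    (hη : ∀ r, ‖Pool.Agent.H61.HB.ft (fun x => f x - u x) r‖ ≤ η) (hsum : δ * P ≤ ∑ x, u x)
    (B : Finset (ZMod P)) (hB : B.Nonempty) (hinv : ∀ b ∈ B, ∑ x, (u (x + b) - u x) ^ 2 ≤ κ ^ 2 * P)
    (c : Fin k → ZMod P) (hc : ∀ j, c j ∈ B) :
    (δ ^ (k + 1) - 2 * k * κ - η * (P / B.card)) * P ≤ ∑ x, f x * ∏ j, u (x + c j) := by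
  have hP : (0 : ℝ) < P := by exact_mod_cast Nat.pos_of_ne_zero (NeZero.ne P)
  have hB0 : (0 : ℝ) < B.card := by exact_mod_cast hB.card_pos
  -- step (ii)
  have s1 : ∑ x, f x * u x ^ k - k * κ * P ≤ ∑ x, f x * ∏ j, u (x + c j) := by
    have h1 : ∀ x, f x * u x ^ k - ∑ j, |u (x + c j) - u x| ≤ f x * ∏ j, u (x + c j) := by
      intro x
      have h2 := prod_ge (Finset.univ : Finset (Fin k)) (fun j => u (x + c j)) (u x) (hu x)
        fun j => hu _
      rw [Finset.card_univ, Fintype.card_fin] at h2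
      have h3 : 0 ≤ ∑ j, |u (x + c j) - u x| := Finset.sum_nonneg fun j _ => abs_nonneg _
      have h4 := mul_le_mul_of_nonneg_left h2 (hf x).1
      have h5 := mul_le_mul_of_nonneg_right (hf x).2 h3
      have h6 : f x * (u x ^ k - ∑ j, |u (x + c j) - u x|) =
        f x * u x ^ k - f x * ∑ j, |u (x + c j) - u x| := by ring
      linarith
    have h2 := Finset.sum_le_sum fun x (_ : x ∈ (Finset.univ : Finset (ZMod P))) => h1 x
    rw [Finset.sum_sub_distrib, Finset.sum_comm] at h2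
    have h3 : ∑ j, ∑ x, |u (x + c j) - u x| ≤ k * κ * P := by
      calc ∑ j, ∑ x, |u (x + c j) - u x| ≤ ∑ _j : Fin k, κ * P :=
            Finset.sum_le_sum fun j _ => l1_le hκ (hinv _ (hc j))
        _ = k * κ * P := by
            rw [Finset.sum_const, Finset.card_univ, Fintype.card_fin, nsmul_eq_mul]; ring
    linarith
  -- step (iii)
  have s2 : ∀ b ∈ B, ∑ x, (f x - u x) * u (x + b) ^ k - k * κ * P ≤
      ∑ x, (f x - u x) * u x ^ k := by
    intro b hb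
    have h1 : ∀ x, (f x - u x) * u (x + b) ^ k - k * |u (x + b) - u x| ≤
        (f x - u x) * u x ^ k := by
      intro x
      have h2 := pow_sub (hu (x + b)) (hu x) k
      have h3 : |f x - u x| ≤ 1 := by
        rw [abs_le]; constructor <;> linarith [(hf x).1, (hf x).2, (hu x).1, (hu x).2]
      have h4 : (f x - u x) * (u (x + b) ^ k - u x ^ k) ≤ k * |u (x + b) - u x| := by
        calc (f x - u x) * (u (x + b) ^ k - u x ^ k)
            ≤ |(f x - u x) * (u (x + b) ^ k - u x ^ k)| := le_abs_self _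
          _ = |f x - u x| * |u (x + b) ^ k - u x ^ k| := abs_mul _ _
          _ ≤ 1 * |u (x + b) ^ k - u x ^ k| := mul_le_mul_of_nonneg_right h3 (abs_nonneg _)
          _ ≤ k * |u (x + b) - u x| := by rw [one_mul]; exact h2
      have h5 : (f x - u x) * (u (x + b) ^ k - u x ^ k) =
        (f x - u x) * u (x + b) ^ k - (f x - u x) * u x ^ k := by ring
      linarith
    have h2 := Finset.sum_le_sum fun x (_ : x ∈ (Finset.univ : Finset (ZMod P))) => h1 x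
    rw [Finset.sum_sub_distrib, ← Finset.mul_sum] at h2
    have h3 := mul_le_mul_of_nonneg_left (l1_le hκ (hinv b hb)) (Nat.cast_nonneg (α := ℝ) k)
    have h4 : (k : ℝ) * (κ * P) = k * κ * P := by ring
    linarith
  have s3 : -(η * (P : ℝ) ^ 2) ≤ ∑ b ∈ B, ∑ x, (f x - u x) * u (x + b) ^ k := by
    have hb := Pool.Agent.H61.HB.bil (fun x => f x - u x) (fun t => u t ^ k) η hη (fun t => by
      rw [abs_of_nonneg (pow_nonneg (hu t).1 k)]; exact pow_le_one₀ (hu t).1 (hu t).2)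
    have h1 : ∀ b, ∑ x, (f x - u x) * u (x + b) ^ k =
        ∑ t, u t ^ k * (f (t + -b) - u (t + -b)) := by
      intro b
      rw [← Equiv.sum_comp (Equiv.addRight b)
        (fun t => u t ^ k * (f (t + -b) - u (t + -b)))]
      refine Finset.sum_congr rfl fun x _ => ?_
      simp only [Equiv.coe_addRight, add_neg_cancel_right]
      ring
    have h2 : ∑ b ∈ B, |∑ t, u t ^ k * (f (t + -b) - u (t + -b))| ≤ η * (P : ℝ) ^ 2 := by
      calc ∑ b ∈ B, |∑ t, u t ^ k * (f (t + -b) - u (t + -b))|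
          ≤ ∑ b, |∑ t, u t ^ k * (f (t + -b) - u (t + -b))| :=
            Finset.sum_le_univ_sum_of_nonneg fun b => abs_nonneg _
        _ = ∑ c, |∑ t, u t ^ k * (f (t + c) - u (t + c))| :=
            Equiv.sum_comp (Equiv.neg (ZMod P))
              (fun c => |∑ t, u t ^ k * (f (t + c) - u (t + c))|)
        _ ≤ η * (P : ℝ) ^ 2 := hb
    have h3 : ∑ b ∈ B, ∑ x, (f x - u x) * u (x + b) ^ k =
        ∑ b ∈ B, ∑ t, u t ^ k * (f (t + -b) - u (t + -b)) :=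
      Finset.sum_congr rfl fun b _ => h1 b
    have h4 : -∑ b ∈ B, |∑ t, u t ^ k * (f (t + -b) - u (t + -b))| ≤
        ∑ b ∈ B, ∑ t, u t ^ k * (f (t + -b) - u (t + -b)) := by
      rw [← Finset.sum_neg_distrib]
      exact Finset.sum_le_sum fun b _ => neg_abs_le _
    rw [h3]
    linarith
  have s4 : -(η * (P / B.card)) * P - k * κ * P ≤ ∑ x, (f x - u x) * u x ^ k := by
    have h1 := Finset.sum_le_sum s2
    rw [Finset.sum_sub_distrib, Finset.sum_const, Finset.sum_const, nsmul_eq_mul,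
      nsmul_eq_mul] at h1
    have h2 : -(η * (P : ℝ) ^ 2) - B.card * (k * κ * P) ≤
        B.card * ∑ x, (f x - u x) * u x ^ k := by linarith
    have h3 : (B.card : ℝ) * (-(η * (P / B.card)) * P - k * κ * P) =
        -(η * (P : ℝ) ^ 2) - B.card * (k * κ * P) := by
      field_simp
    rw [← h3] at h2
    exact le_of_mul_le_mul_left h2 hB0
  -- step (iv)
  have s5 : δ ^ (k + 1) * P ≤ ∑ x, u x ^ (k + 1) := by
    have h1 := inner_pow (P := P) k hu
    have h2 : (δ * P) ^ (k + 1) ≤ (∑ x, u x) ^ (k + 1) :=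
      pow_le_pow_left₀ (mul_nonneg hδ hP.le) hsum _
    have h3 : (δ * P) ^ (k + 1) / (P : ℝ) ^ k ≤ (∑ x, u x) ^ (k + 1) / (P : ℝ) ^ k :=
      div_le_div_of_nonneg_right h2 (pow_nonneg hP.le k)
    have h4 : (δ * P) ^ (k + 1) / (P : ℝ) ^ k = δ ^ (k + 1) * P := by
      have : (P : ℝ) ^ k ≠ 0 := pow_ne_zero _ hP.ne'
      rw [mul_pow, pow_succ (P : ℝ) k]
      field_simp
    linarith
  have s6 : ∑ x, f x * u x ^ k = ∑ x, u x ^ (k + 1) + ∑ x, (f x - u x) * u x ^ k := by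
    rw [← Finset.sum_add_distrib]
    refine Finset.sum_congr rfl fun x _ => ?_
    ring
  have s7 : (δ ^ (k + 1) - 2 * k * κ - η * (P / B.card)) * P =
      δ ^ (k + 1) * P + (-(η * (P / B.card)) * P - k * κ * P) - k * κ * P := by ring
  rw [s7]
  linarith

end Pool.Agent.H96.BH
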