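import Pool.Agent.H96.BH.DfD

/-!
# [H96 BH TELD] Telescoping over the dilates

Induction on `k` (for all `w`, `G`), as in `Pool.Agent.H61.HB.gvn`. `k = 0`: both products are `1`. Step: `a = Fin.cons c a'` (`Fin.consEquiv`, `Fin.cons_zero`, `Fin.cons_succ`,
`Fin.prod_univ_succ`): `∏ f - ∏ u = (f - u)(x + mc m c) * ∏ j, f (x + mc m (a' j)) + u (x + mc m c) * (∏ j, f (x + mc m (a' j)) - ∏ j, u (x + mc m (a' j)))`.
First part: for fixed `a'` (`L^k` of them) `hg` with `W m c = w m (Fin.cons c a')`, `G' m x = G m x * ∏ j, f (x + mc m (a' j))`: at most `β M L P`. Second part: for fixed `c` (`L` of them)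
induction with `w' m a' = w m (Fin.cons c a')`, `G' m x = G m x * u (x + mc m c)`: at most `k β M L^k P`. Total `L^k β M L P + L k β M L^k P = (k+1) β M L^(k+1) P`.
-/

set_option autoImplicit false

namespace Pool.Agent.H96.BH

open Finset

theorem teld {P : ℕ} [NeZero P] {β : ℝ} {M L : ℕ} (f u : ZMod P → ℝ) (hf : ∀ x, 0 ≤ f x ∧ f x ≤ 1)
    (hu : ∀ x, 0 ≤ u x ∧ u x ≤ 1) (hg : AvP β M L (fun x => f x - u x)) (k : ℕ) :
    ∀ (w : Fin M → (Fin k → Fin L) → ℝ) (G : Fin M → ZMod P → ℝ), (∀ m a, |w m a| ≤ 1) → (∀ m x, |G m x| ≤ 1) →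
      |∑ m, ∑ a : Fin k → Fin L, ∑ x, w m a * G m x * (∏ j, f (x + mc m (a j)) - ∏ j, u (x + mc m (a j)))| ≤
        k * β * M * (L : ℝ) ^ k * P := by
  induction k with
  | zero =>
    intro w G _ _
    simp
  | succ k ih =>
    intro w G hw hG
    have hsplit : ∑ m, ∑ a : Fin (k + 1) → Fin L, ∑ x, w m a * G m x *
        (∏ j, f (x + mc m (a j)) - ∏ j, u (x + mc m (a j))) =
        (∑ a' : Fin k → Fin L, ∑ m, ∑ c, ∑ x, w m (Fin.cons c a') *
          (G m x * ∏ j, f (x + mc m (a' j))) * (f (x + mc m c) - u (x + mc m c))) +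
        ∑ c : Fin L, ∑ m, ∑ a' : Fin k → Fin L, ∑ x, w m (Fin.cons c a') *
          (G m x * u (x + mc m c)) * (∏ j, f (x + mc m (a' j)) - ∏ j, u (x + mc m (a' j))) := by
      have e1 : ∀ m : Fin M, ∑ a : Fin (k + 1) → Fin L, ∑ x, w m a * G m x *
          (∏ j, f (x + mc m (a j)) - ∏ j, u (x + mc m (a j))) =
          ∑ c : Fin L, ∑ a' : Fin k → Fin L, (∑ x, w m (Fin.cons c a') *
            (G m x * ∏ j, f (x + mc m (a' j))) * (f (x + mc m c) - u (x + mc m c)) +
            ∑ x, w m (Fin.cons c a') * (G m x * u (x + mc m c)) *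
              (∏ j, f (x + mc m (a' j)) - ∏ j, u (x + mc m (a' j)))) := by
        intro m
        rw [← (Fin.consEquiv (fun _ : Fin (k + 1) => Fin L)).sum_comp, Fintype.sum_prod_type]
        refine Finset.sum_congr rfl fun c _ => Finset.sum_congr rfl fun a' _ => ?_
        rw [← Finset.sum_add_distrib]
        refine Finset.sum_congr rfl fun x _ => ?_
        have e2 : (Fin.consEquiv (fun _ : Fin (k + 1) => Fin L)) (c, a') = Fin.cons c a' := rfl
        rw [e2, Fin.prod_univ_succ, Fin.prod_univ_succ]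
        simp only [Fin.cons_zero, Fin.cons_succ]
        ring
      rw [Finset.sum_congr rfl fun m _ => e1 m]
      simp only [Finset.sum_add_distrib]
      congr 1
      · rw [Finset.sum_congr rfl fun m _ => Finset.sum_comm]
        exact Finset.sum_comm
      · exact Finset.sum_comm
    rw [hsplit]
    have h1 : ∀ a' : Fin k → Fin L, |∑ m, ∑ c, ∑ x, w m (Fin.cons c a') *
          (G m x * ∏ j, f (x + mc m (a' j))) * (f (x + mc m c) - u (x + mc m c))| ≤
          β * M * L * P := by
      intro a'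
      refine hg (fun m c => w m (Fin.cons c a')) (fun m x => G m x * ∏ j, f (x + mc m (a' j)))
        (fun m c => hw _ _) fun m x => ?_
      rw [abs_mul, Finset.abs_prod]
      have h2 : ∏ j, |f (x + mc m (a' j))| ≤ 1 := by
        refine Finset.prod_le_one (fun j _ => abs_nonneg _) fun j _ => ?_
        rw [abs_of_nonneg (hf _).1]
        exact (hf _).2
      have h3 : 0 ≤ ∏ j, |f (x + mc m (a' j))| := Finset.prod_nonneg fun j _ => abs_nonneg _
      exact mul_le_one₀ (hG m x) h3 h2
    have h2 : ∀ c : Fin L, |∑ m, ∑ a' : Fin k → Fin L, ∑ x, w m (Fin.cons c a') *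
          (G m x * u (x + mc m c)) * (∏ j, f (x + mc m (a' j)) - ∏ j, u (x + mc m (a' j)))| ≤
          k * β * M * (L : ℝ) ^ k * P := by
      intro c
      refine ih (fun m a' => w m (Fin.cons c a')) (fun m x => G m x * u (x + mc m c))
        (fun m a' => hw _ _) fun m x => ?_
      rw [abs_mul]
      refine mul_le_one₀ (hG m x) (abs_nonneg _) ?_
      rw [abs_of_nonneg (hu _).1]
      exact (hu _).2
    calc _ ≤ (∑ a' : Fin k → Fin L, |∑ m, ∑ c, ∑ x, w m (Fin.cons c a') *
          (G m x * ∏ j, f (x + mc m (a' j))) * (f (x + mc m c) - u (x + mc m c))|) +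
          ∑ c : Fin L, |∑ m, ∑ a' : Fin k → Fin L, ∑ x, w m (Fin.cons c a') *
          (G m x * u (x + mc m c)) * (∏ j, f (x + mc m (a' j)) - ∏ j, u (x + mc m (a' j)))| :=
          (abs_add_le _ _).trans (add_le_add (Finset.abs_sum_le_sum_abs _ _)
            (Finset.abs_sum_le_sum_abs _ _))
      _ ≤ (∑ _a' : Fin k → Fin L, β * M * L * P) +
          ∑ _c : Fin L, (k : ℝ) * β * M * (L : ℝ) ^ k * P :=
          add_le_add (Finset.sum_le_sum fun a' _ => h1 a') (Finset.sum_le_sum fun c _ => h2 c)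
      _ = ((k + 1 : ℕ) : ℝ) * β * M * (L : ℝ) ^ (k + 1) * P := by
          rw [Finset.sum_const, Finset.sum_const, Finset.card_univ, Finset.card_univ,
            Fintype.card_fun, Fintype.card_fin, Fintype.card_fin, nsmul_eq_mul, nsmul_eq_mul]
          push_cast
          ring

end Pool.Agent.H96.BH
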