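import Pool.Agent.H61.HB.Reg
import Pool.Agent.H61.HB.Boh
import Pool.Agent.H96.BH.Av
import Pool.Agent.H96.BH.TelD
import Pool.Agent.H96.BH.Dir
import Pool.Agent.H96.BH.Lb
import Pool.Agent.H96.BH.Trf

/-!
# [H96 BH CorD] Assembly of `CorD` (helper96)

`δ = d / 3`, `κ₀ = δ^(k+1) / (16 (k + 1))`, `W a b = 2^(b * (a * k))`, `β a b = ε δ^(k+1) / (8 (k + 1) W a b)`, `av (β a b)` gives `η₁ a b`, `M₁ a b`;
`Φ a b = min (η₁ a b) (δ^(k+1) / (8 * 2^(b a)))`; `reg κ₀ Φ` gives `D₀`; `M = 1 + ∑ a ≤ D₀, ∑ b ≤ D₀, (M₁ a b + 2 W a b)`; `L₀ = ∑ a ≤ D₀, ∑ b ≤ D₀, L₁ a b M + 1`.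
Count with the weight `w m a = 1` if `a ∈ AA` and all `m a_j` are in the Bohr set.
-/

set_option autoImplicit false

namespace Pool.Agent.H96.BH

open Finset Pool.Agent.H99.HP

/-- the tuple `α + 1` -/
private def sc {k L : ℕ} (α : Fin k → Fin L) : Fin k → ℕ := fun j => (α j : ℕ) + 1

private theorem sc_card {k L : ℕ} {AA : Finset (Fin k → ℕ)} (hAA : AA ⊆ Fintype.piFinset (fun _ : Fin k => Icc 1 L)) :
    AA.card ≤ ((univ : Finset (Fin k → Fin L)).filter fun α => sc α ∈ AA).card := by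
  classical
  have h1 : AA ⊆ ((univ : Finset (Fin k → Fin L)).filter fun α => sc α ∈ AA).image sc := by
    intro a ha
    have h2 := Fintype.mem_piFinset.mp (hAA ha)
    have h3 : ∀ j, a j - 1 < L := by
      intro j
      have := mem_Icc.mp (h2 j)
      omega
    have h4 : sc (fun j => (⟨a j - 1, h3 j⟩ : Fin L)) = a := by
      funext j
      have := mem_Icc.mp (h2 j)
      show a j - 1 + 1 = a j
      omega
    refine mem_image.mpr ⟨fun j => ⟨a j - 1, h3 j⟩, ?_, h4⟩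
    rw [mem_filter]
    exact ⟨mem_univ _, by rw [h4]; exact ha⟩
  exact (card_le_card h1).trans card_image_le

open Classical in
private theorem fin_card {P : ℕ} [NeZero P] {k M L : ℕ} (B : Finset (ZMod P)) (α : Fin k → Fin L) :
    ((Icc 1 M).filter fun m => ∀ j, ((m * sc α j : ℕ) : ZMod P) ∈ B).card ≤
      ((univ : Finset (Fin M)).filter fun m => ∀ j, mc m (α j) ∈ B).card := by
  have h1 : ((Icc 1 M).filter fun m => ∀ j, ((m * sc α j : ℕ) : ZMod P) ∈ B) ⊆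
      ((univ : Finset (Fin M)).filter fun m => ∀ j, mc m (α j) ∈ B).image (fun m : Fin M => (m : ℕ) + 1) := by
    intro m hm
    rw [mem_filter, mem_Icc] at hm
    obtain ⟨⟨h2, h3⟩, h4⟩ := hm
    have h5 : m - 1 < M := by omega
    refine mem_image.mpr ⟨⟨m - 1, h5⟩, ?_, ?_⟩
    · rw [mem_filter]
      refine ⟨mem_univ _, fun j => ?_⟩
      have h6 := h4 j
      have h7 : (mc (⟨m - 1, h5⟩ : Fin M) (α j) : ZMod P) = ((m * sc α j : ℕ) : ZMod P) := by
        unfold mc sc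
        show (((m - 1 + 1) * ((α j : ℕ) + 1) : ℕ) : ZMod P) = _
        rw [Nat.sub_add_cancel h2]
      rw [h7]
      exact h6
    · show m - 1 + 1 = m
      omega
  exact (card_le_card h1).trans card_image_le

open Classical in
/-- the weights -/
private noncomputable def wt {P k M L : ℕ} (B : Finset (ZMod P)) (AA : Finset (Fin k → ℕ)) (m : Fin M)
    (α : Fin k → Fin L) : ℝ :=
  if sc α ∈ AA ∧ ∀ j, mc m (α j) ∈ B then 1 else 0

private theorem wt_sum {P : ℕ} [NeZero P] {k M L : ℕ} (B : Finset (ZMod P)) {AA : Finset (Fin k → ℕ)}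
    (hAA : AA ⊆ Fintype.piFinset (fun _ : Fin k => Icc 1 L)) {T : ℝ} (hT : 0 ≤ T)
    (h : ∀ a : Fin k → ℕ, ∀ [DecidablePred fun m : ℕ => ∀ j, ((m * a j : ℕ) : ZMod P) ∈ B],
      T ≤ (((Icc 1 M).filter fun m => ∀ j, ((m * a j : ℕ) : ZMod P) ∈ B).card : ℝ)) :
    T * AA.card ≤ ∑ m : Fin M, ∑ α : Fin k → Fin L, wt B AA m α := by
  classical
  rw [sum_comm]
  have h1 : ∀ α ∈ ((univ : Finset (Fin k → Fin L)).filter fun α => sc α ∈ AA),
      T ≤ ∑ m : Fin M, wt B AA m α := by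
    intro α hα
    have h2 := (mem_filter.mp hα).2
    have h3 : ∀ m : Fin M, wt B AA m α = if ∀ j, mc m (α j) ∈ B then 1 else 0 := by
      intro m
      unfold wt
      simp [h2]
    rw [sum_congr rfl (fun m _ => h3 m), ← sum_filter, sum_const, nsmul_eq_mul, mul_one]
    refine (h (sc α)).trans ?_
    exact_mod_cast fin_card (M := M) B α
  calc T * AA.card ≤ T * (((univ : Finset (Fin k → Fin L)).filter fun α => sc α ∈ AA).card : ℝ) := by
        refine mul_le_mul_of_nonneg_left ?_ hT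
        exact_mod_cast sc_card hAA
    _ = ∑ _α ∈ ((univ : Finset (Fin k → Fin L)).filter fun α => sc α ∈ AA), T := by
        rw [sum_const, nsmul_eq_mul, mul_comm]
    _ ≤ ∑ α ∈ ((univ : Finset (Fin k → Fin L)).filter fun α => sc α ∈ AA), ∑ m : Fin M, wt B AA m α :=
        sum_le_sum h1
    _ ≤ ∑ α : Fin k → Fin L, ∑ m : Fin M, wt B AA m α := by
        refine sum_le_sum_of_subset_of_nonneg (subset_univ _) fun α _ _ => sum_nonneg fun m _ => ?_
        unfold wt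
        split_ifs <;> norm_num

/-- the weighted count is at most `M` times the number of configurations -/
private theorem wt_upper {k M L : ℕ} [NeZero (2 * (M * L) + 1)] (B : Finset (ZMod (2 * (M * L) + 1)))
    {AA : Finset (Fin k → ℕ)} (hAA : AA ⊆ Fintype.piFinset (fun _ : Fin k => Icc 1 L)) {S : Finset ℕ}
    (hS : S ⊆ Icc 1 (M * L)) :
    ∑ m : Fin M, ∑ α : Fin k → Fin L, wt B AA m α *
        ∑ x, ind (2 * (M * L) + 1) S x * ∏ j, ind (2 * (M * L) + 1) S (x + mc m (α j)) ≤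
      M * ((cnf S (dil M AA)).card : ℝ) := by
  classical
  obtain ⟨Z, hZ⟩ : ∃ Z : (Fin k → ZMod (2 * (M * L) + 1)) → ℝ, ∀ c, Z c =
      ∑ x, ind (2 * (M * L) + 1) S x * ∏ j, ind (2 * (M * L) + 1) S (x + c j) := ⟨_, fun _ => rfl⟩
  have hind : ∀ x, 0 ≤ ind (2 * (M * L) + 1) S x := by
    intro x
    unfold ind
    split_ifs <;> norm_num
  have hZ0 : ∀ c, 0 ≤ Z c := by
    intro c
    rw [hZ]
    exact sum_nonneg fun x _ => mul_nonneg (hind x) (prod_nonneg fun j _ => hind _)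
  have hC : ∀ c ∈ dil M AA, ∀ j, c j ∈ Icc 1 (M * L) := by
    intro c hc j
    unfold dil at hc
    obtain ⟨⟨m, a⟩, hz, rfl⟩ := mem_image.mp hc
    obtain ⟨h1, h2⟩ := mem_product.mp hz
    have h3 := mem_Icc.mp h1
    have h4 := mem_Icc.mp (Fintype.mem_piFinset.mp (hAA h2) j)
    rw [mem_Icc]
    exact ⟨Nat.one_le_iff_ne_zero.mpr (Nat.mul_ne_zero (by omega) (by omega)), Nat.mul_le_mul h3.2 h4.2⟩
  have hcnf : ((cnf S (dil M AA)).card : ℝ) = ∑ c ∈ im (2 * (M * L) + 1) (dil M AA), Z c := by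
    rw [cnf_eq (M * L) hS hC]
    exact sum_congr rfl fun c _ => (hZ c).symm
  have hone : ∀ m : Fin M, ∑ α : Fin k → Fin L, wt B AA m α *
      ∑ x, ind (2 * (M * L) + 1) S x * ∏ j, ind (2 * (M * L) + 1) S (x + mc m (α j)) ≤
        ((cnf S (dil M AA)).card : ℝ) := by
    intro m
    rw [hcnf]
    obtain ⟨s, hs⟩ : ∃ s : Finset (Fin k → Fin L), s = univ.filter fun α => sc α ∈ AA ∧ ∀ j, mc m (α j) ∈ B := ⟨_, rfl⟩
    have h1 : ∑ α : Fin k → Fin L, wt B AA m α *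
        ∑ x, ind (2 * (M * L) + 1) S x * ∏ j, ind (2 * (M * L) + 1) S (x + mc m (α j)) =
        ∑ α ∈ s, Z (fun j => mc m (α j)) := by
      rw [hs, sum_filter]
      refine sum_congr rfl fun α _ => ?_
      rw [hZ]
      unfold wt
      split_ifs
      · rw [one_mul]
      · rw [zero_mul]
    have hval : ∀ c : Fin L, ((m : ℕ) + 1) * ((c : ℕ) + 1) < 2 * (M * L) + 1 := by
      intro c
      have h2 : ((m : ℕ) + 1) * ((c : ℕ) + 1) ≤ M * L := Nat.mul_le_mul m.2 c.2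
      omega
    have hinj : Set.InjOn (fun (α : Fin k → Fin L) (j : Fin k) => (mc m (α j) : ZMod (2 * (M * L) + 1))) s := by
      intro α _ α' _ h2
      funext j
      have h3 : (mc m (α j) : ZMod (2 * (M * L) + 1)) = mc m (α' j) := congrFun h2 j
      unfold mc at h3
      have h4 := congrArg ZMod.val h3
      rw [ZMod.val_natCast_of_lt (hval _), ZMod.val_natCast_of_lt (hval _)] at h4
      have h5 := Nat.eq_of_mul_eq_mul_left (by omega : 0 < (m : ℕ) + 1) h4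
      exact Fin.ext (by omega)
    rw [h1, ← sum_image (f := Z) hinj]
    refine sum_le_sum_of_subset_of_nonneg ?_ fun c _ _ => hZ0 c
    intro c hc
    obtain ⟨α, hα, rfl⟩ := mem_image.mp hc
    rw [hs] at hα
    have h2 := (mem_filter.mp hα).2.1
    unfold im
    refine mem_image.mpr ⟨fun j => ((m : ℕ) + 1) * sc α j, ?_, ?_⟩
    · unfold dil
      refine mem_image.mpr ⟨((m : ℕ) + 1, sc α), mem_product.mpr ⟨mem_Icc.mpr ⟨by omega, m.2⟩, h2⟩, rfl⟩
    · rfl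
  calc _ ≤ ∑ _m : Fin M, ((cnf S (dil M AA)).card : ℝ) := sum_le_sum fun m _ => hone m
    _ = M * ((cnf S (dil M AA)).card : ℝ) := by
        rw [sum_const, card_univ, Fintype.card_fin, nsmul_eq_mul]

theorem corD : CorD := by
  classical
  intro k d ε hd hd1 hε hε1
  obtain ⟨δ, hδd⟩ : ∃ δ : ℝ, δ = d / 3 := ⟨_, rfl⟩
  have hδ : 0 < δ := by rw [hδd]; positivity
  obtain ⟨R, hR⟩ : ∃ R : ℝ, R = δ ^ (k + 1) := ⟨_, rfl⟩
  have hRp : 0 < R := by rw [hR]; positivity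
  obtain ⟨κ₀, hκ₀⟩ : ∃ κ₀ : ℝ, κ₀ = R / (16 * (k + 1)) := ⟨_, rfl⟩
  have hκ₀p : 0 < κ₀ := by rw [hκ₀]; positivity
  obtain ⟨β, hβ⟩ : ∃ β : ℕ → ℕ → ℝ, ∀ a b, β a b = ε * R / (8 * (k + 1) * 2 ^ (b * (a * k))) := ⟨_, fun _ _ => rfl⟩
  have hβp : ∀ a b, 0 < β a b := fun a b => by rw [hβ]; positivity
  choose η₁ M₁ hη₁ hav using fun a b => av (β a b) (hβp a b)
  have hav' : ∀ a b M, ∃ L₀ : ℕ, M₁ a b ≤ M → ∀ L : ℕ, L₀ ≤ L →
      ∀ (P : ℕ) [NeZero P], P = 2 * (M * L) + 1 → ∀ g : ZMod P → ℝ, (∀ x, |g x| ≤ 1) →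
        (∀ r, ‖Pool.Agent.H61.HB.ft g r‖ ≤ η₁ a b) → AvP (β a b) M L g := by
    intro a b M
    by_cases h : M₁ a b ≤ M
    · obtain ⟨L₀, hL₀⟩ := hav a b M h
      exact ⟨L₀, fun _ => hL₀⟩
    · exact ⟨0, fun h' => absurd h' h⟩
  choose L₁ hL₁ using hav'
  obtain ⟨Φ, hΦ⟩ : ∃ Φ : ℕ → ℕ → ℝ, ∀ a b, Φ a b = min (η₁ a b) (R / (8 * 2 ^ (b * a))) := ⟨_, fun _ _ => rfl⟩
  have hΦp : ∀ a b, 0 < Φ a b := fun a b => by
    rw [hΦ]
    exact lt_min (hη₁ a b) (by positivity)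
  obtain ⟨D₀, hreg⟩ := Pool.Agent.H61.HB.reg κ₀ hκ₀p Φ hΦp
  obtain ⟨M, hM⟩ : ∃ M : ℕ, M = 1 + ∑ a ∈ range (D₀ + 1), ∑ b ∈ range (D₀ + 1),
      (M₁ a b + 2 * 2 ^ (b * (a * k))) := ⟨_, rfl⟩
  have hM1 : 1 ≤ M := by omega
  have hMab : ∀ a b, a ≤ D₀ → b ≤ D₀ → M₁ a b + 2 * 2 ^ (b * (a * k)) ≤ M := by
    intro a b ha hb
    have h1 : M₁ a b + 2 * 2 ^ (b * (a * k)) ≤ ∑ b ∈ range (D₀ + 1), (M₁ a b + 2 * 2 ^ (b * (a * k))) :=
      single_le_sum (f := fun b => M₁ a b + 2 * 2 ^ (b * (a * k))) (fun _ _ => Nat.zero_le _)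
        (mem_range.mpr (by omega))
    have h2 : ∑ b ∈ range (D₀ + 1), (M₁ a b + 2 * 2 ^ (b * (a * k))) ≤
        ∑ a ∈ range (D₀ + 1), ∑ b ∈ range (D₀ + 1), (M₁ a b + 2 * 2 ^ (b * (a * k))) :=
      single_le_sum (f := fun a => ∑ b ∈ range (D₀ + 1), (M₁ a b + 2 * 2 ^ (b * (a * k))))
        (fun _ _ => Nat.zero_le _) (mem_range.mpr (by omega))
    omega
  obtain ⟨L₂, hL₂⟩ : ∃ L₂ : ℕ, L₂ = ∑ a ∈ range (D₀ + 1), ∑ b ∈ range (D₀ + 1), L₁ a b M := ⟨_, rfl⟩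
  have hLab : ∀ a b, a ≤ D₀ → b ≤ D₀ → L₁ a b M ≤ L₂ := by
    intro a b ha hb
    have h1 : L₁ a b M ≤ ∑ b ∈ range (D₀ + 1), L₁ a b M :=
      single_le_sum (f := fun b => L₁ a b M) (fun _ _ => Nat.zero_le _) (mem_range.mpr (by omega))
    have h2 : ∑ b ∈ range (D₀ + 1), L₁ a b M ≤ ∑ a ∈ range (D₀ + 1), ∑ b ∈ range (D₀ + 1), L₁ a b M :=
      single_le_sum (f := fun a => ∑ b ∈ range (D₀ + 1), L₁ a b M)
        (fun _ _ => Nat.zero_le _) (mem_range.mpr (by omega))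
    omega
  have hMr : (1 : ℝ) ≤ M := by exact_mod_cast hM1
  obtain ⟨W₀, hW₀⟩ : ∃ W₀ : ℝ, W₀ = 2 ^ (D₀ * (D₀ * k)) := ⟨_, rfl⟩
  have hW₀p : 0 < W₀ := by rw [hW₀]; positivity
  refine ⟨M, ε * R / (4 * W₀ * M ^ k), L₂ + 1, hM1, by positivity, ?_⟩
  intro L hL S hS hSd AA hAA hAc
  have hL1 : 1 ≤ L := by omega
  have hLr : (1 : ℝ) ≤ L := by exact_mod_cast hL1
  haveI : NeZero (2 * (M * L) + 1) := ⟨by omega⟩
  have hPL : ((2 * (M * L) + 1 : ℕ) : ℝ) = 2 * (M * L) + 1 := by push_cast; ring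
  have hf : ∀ t, 0 ≤ ind (2 * (M * L) + 1) S t ∧ ind (2 * (M * L) + 1) S t ≤ 1 := by
    intro t
    unfold ind
    split_ifs <;> norm_num
  obtain ⟨u, a, n, Λ, ha, hn, hΛ, hu, hsum, hinv, hη⟩ := hreg (2 * (M * L) + 1) (ind (2 * (M * L) + 1) S) hf
  obtain ⟨f, hfd⟩ : ∃ f : ZMod (2 * (M * L) + 1) → ℝ, f = ind (2 * (M * L) + 1) S := ⟨_, rfl⟩
  have hsumf := ind_sum (M * L) hS
  have hupper := wt_upper (k := k) (Pool.Agent.H61.HB.bohr Λ n) hAA hS
  rw [← hfd] at hf hsum hη hsumf hupper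
  obtain ⟨B, hB⟩ : ∃ B, B = Pool.Agent.H61.HB.bohr Λ n := ⟨_, rfl⟩
  rw [← hB] at hinv hupper
  have hBne : B.Nonempty := ⟨0, by rw [hB]; exact Pool.Agent.H61.HB.bohr_zero Λ n⟩
  have hBcard : ((2 * (M * L) + 1 : ℕ) : ℝ) ≤ 2 ^ (n * a) * B.card := by
    have h1 := Pool.Agent.H61.HB.bohr_card Λ n
    rw [← hB] at h1
    have h2 : ((2 * (M * L) + 1 : ℕ) : ℝ) ≤ 2 ^ (n * Λ.card) * B.card := by exact_mod_cast h1
    refine h2.trans ?_
    have h3 : (2 : ℝ) ^ (n * Λ.card) ≤ 2 ^ (n * a) :=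
      pow_le_pow_right₀ (by norm_num) (Nat.mul_le_mul_left _ hΛ)
    gcongr
  have hB0 : (0 : ℝ) < B.card := by exact_mod_cast hBne.card_pos
  obtain ⟨P, hP⟩ : ∃ P : ℝ, P = ((2 * (M * L) + 1 : ℕ) : ℝ) := ⟨_, rfl⟩
  have hPp : 0 < P := by rw [hP, hPL]; positivity
  -- lower bound for one configuration
  have hsu : δ * ((2 * (M * L) + 1 : ℕ) : ℝ) ≤ ∑ t, u t := by
    rw [hsum, hsumf, hPL, hδd]
    push_cast at hSd
    have h1 : (1 : ℝ) ≤ M * L := by nlinarith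
    nlinarith
  have hone : ∀ c : Fin k → ZMod (2 * (M * L) + 1), (∀ j, c j ∈ B) →
      3 / 4 * R * P ≤ ∑ x, f x * ∏ j, u (x + c j) := by
    intro c hc
    have h1 := lb k hf hu hδ.le hκ₀p.le hη hsu B hBne hinv c hc
    refine le_trans ?_ h1
    rw [← hP, ← hR]
    refine mul_le_mul_of_nonneg_right ?_ hPp.le
    have h2 : 2 * (k : ℝ) * κ₀ ≤ R / 8 := by
      rw [hκ₀]
      have h3 : 2 * (k : ℝ) * (R / (16 * (k + 1))) = R / 8 * (k / (k + 1)) := by
        field_simp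
        ring
      rw [h3]
      have h4 : (k : ℝ) / (k + 1) ≤ 1 := by
        rw [div_le_one (by positivity)]
        linarith
      exact mul_le_of_le_one_right (by positivity) h4
    have h5 : Φ a n * (P / B.card) ≤ R / 8 := by
      have h6 : P / B.card ≤ 2 ^ (n * a) := by
        rw [div_le_iff₀ hB0, hP]
        exact hBcard
      have h7 : Φ a n ≤ R / (8 * 2 ^ (n * a)) := by
        rw [hΦ]
        exact min_le_right _ _
      calc Φ a n * (P / B.card) ≤ R / (8 * 2 ^ (n * a)) * 2 ^ (n * a) := by gcongr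
        _ = R / 8 := by field_simp
    linarith
  -- the weights
  have hWle : (2 : ℝ) ^ (n * (Λ.card * k)) ≤ 2 ^ (n * (a * k)) :=
    pow_le_pow_right₀ (by norm_num) (Nat.mul_le_mul_left _ (Nat.mul_le_mul_right _ hΛ))
  have hsw : (M : ℝ) / (2 * 2 ^ (n * (a * k))) * AA.card ≤
      ∑ m : Fin M, ∑ α : Fin k → Fin L, wt B AA m α := by
    refine wt_sum B hAA (by positivity) ?_
    intro b _
    have h1 := dir Λ n k M b (by
      have h2 := hMab a n ha hn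
      have h3 : 2 ^ (n * (Λ.card * k)) ≤ 2 ^ (n * (a * k)) :=
        Nat.pow_le_pow_right (by norm_num) (Nat.mul_le_mul_left _ (Nat.mul_le_mul_right _ hΛ))
      omega)
    rw [← hB] at h1
    have h2 : (M : ℝ) / (2 * 2 ^ (n * (a * k))) ≤ M / (2 * 2 ^ (n * (Λ.card * k))) := by
      gcongr
    refine h2.trans (h1.trans (le_of_eq ?_))
    congr 2
    ext m
    simp only [mem_filter]
  -- telescoping
  have hg1 : ∀ x, |f x - u x| ≤ 1 := by
    intro x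
    rw [abs_le]
    constructor <;> linarith [(hf x).1, (hf x).2, (hu x).1, (hu x).2]
  have hAv : AvP (β a n) M L (fun x => f x - u x) := by
    refine hL₁ a n M ((Nat.le_add_right _ _).trans (hMab a n ha hn)) L
      ((hLab a n ha hn).trans (by omega)) (2 * (M * L) + 1) rfl _ hg1 fun r => ?_
    refine (hη r).trans ?_
    rw [hΦ]
    exact min_le_left _ _
  have htel := teld f u hf hu hAv k (wt B AA) (fun _ => f)
    (fun m α => by unfold wt; split_ifs <;> norm_num)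
    (fun _ x => by rw [abs_le]; constructor <;> linarith [(hf x).1, (hf x).2])
  rw [← hP] at htel
  have hw0 : ∀ (m : Fin M) (α : Fin k → Fin L), 0 ≤ wt B AA m α := by
    intro m α
    unfold wt
    split_ifs <;> norm_num
  have hmain : 3 / 4 * R * P * ∑ m : Fin M, ∑ α : Fin k → Fin L, wt B AA m α ≤
      ∑ m : Fin M, ∑ α : Fin k → Fin L, wt B AA m α * ∑ x, f x * ∏ j, u (x + mc m (α j)) := by
    rw [mul_sum]
    refine sum_le_sum fun m _ => ?_
    rw [mul_sum]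
    refine sum_le_sum fun α _ => ?_
    by_cases h : sc α ∈ AA ∧ ∀ j, mc m (α j) ∈ B
    · have h1 := hone (fun j => mc m (α j)) h.2
      rw [mul_comm]
      exact mul_le_mul_of_nonneg_left h1 (hw0 m α)
    · have h1 : wt B AA m α = 0 := by
        unfold wt
        rw [if_neg h]
      rw [h1, mul_zero, zero_mul]
  have hdiff : ∑ m : Fin M, ∑ α : Fin k → Fin L, ∑ x, wt B AA m α * f x *
      (∏ j, f (x + mc m (α j)) - ∏ j, u (x + mc m (α j))) =
      (∑ m : Fin M, ∑ α : Fin k → Fin L, wt B AA m α * ∑ x, f x * ∏ j, f (x + mc m (α j))) -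
      ∑ m : Fin M, ∑ α : Fin k → Fin L, wt B AA m α * ∑ x, f x * ∏ j, u (x + mc m (α j)) := by
    rw [← sum_sub_distrib]
    refine sum_congr rfl fun m _ => ?_
    rw [← sum_sub_distrib]
    refine sum_congr rfl fun α _ => ?_
    rw [← mul_sub, ← sum_sub_distrib, mul_sum]
    refine sum_congr rfl fun x _ => ?_
    ring
  rw [hdiff] at htel
  have h1 := (abs_le.mp htel).1
  obtain ⟨Y, hY⟩ : ∃ Y : ℝ, Y = ((cnf S (dil M AA)).card : ℝ) := ⟨_, rfl⟩
  rw [← hY] at hupper ⊢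
  -- numbers
  obtain ⟨W, hW⟩ : ∃ W : ℝ, W = 2 ^ (n * (a * k)) := ⟨_, rfl⟩
  have hWp : 0 < W := by rw [hW]; positivity
  have hWW : W ≤ W₀ := by
    rw [hW, hW₀]
    exact pow_le_pow_right₀ (by norm_num) (Nat.mul_le_mul hn (Nat.mul_le_mul_right _ ha))
  rw [← hW] at hsw
  have hkβ : (k : ℝ) * β a n ≤ ε * R / (8 * W) := by
    rw [hβ, ← hW]
    have h3 : (k : ℝ) * (ε * R / (8 * (k + 1) * W)) = ε * R / (8 * W) * (k / (k + 1)) := by
      field_simp
    rw [h3]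
    have h4 : (k : ℝ) / (k + 1) ≤ 1 := by
      rw [div_le_one (by positivity)]
      linarith
    exact mul_le_of_le_one_right (by positivity) h4
  have hQ0 : 0 ≤ (M : ℝ) * (L : ℝ) ^ k * P := by positivity
  have h2 : (k : ℝ) * β a n * M * (L : ℝ) ^ k * P ≤ ε * R / (8 * W) * (M * (L : ℝ) ^ k * P) := by
    calc (k : ℝ) * β a n * M * (L : ℝ) ^ k * P = (k * β a n) * (M * (L : ℝ) ^ k * P) := by ring
      _ ≤ _ := mul_le_mul_of_nonneg_right hkβ hQ0
  have h3 : 3 / 4 * R * P * (M / (2 * W) * (ε * (L : ℝ) ^ k)) ≤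
      3 / 4 * R * P * ∑ m : Fin M, ∑ α : Fin k → Fin L, wt B AA m α := by
    refine mul_le_mul_of_nonneg_left ?_ (by positivity)
    refine le_trans ?_ hsw
    gcongr
  have h4 : 3 / 4 * R * P * (M / (2 * W) * (ε * (L : ℝ) ^ k)) = 3 * (ε * R / (8 * W) * (M * (L : ℝ) ^ k * P)) := by
    field_simp
    ring
  have h5 : 2 * (ε * R / (8 * W) * (M * (L : ℝ) ^ k * P)) ≤ M * Y := by
    linarith
  have h6 : ε * R / (4 * W) * ((L : ℝ) ^ k * P) ≤ Y := by
    have h7 : (M : ℝ) * (ε * R / (4 * W) * ((L : ℝ) ^ k * P)) ≤ M * Y := by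
      refine le_trans (le_of_eq ?_) h5
      field_simp
      ring
    exact le_of_mul_le_mul_left h7 (by linarith)
  refine le_trans ?_ h6
  have h8 : ((M * L : ℕ) : ℝ) ≤ P := by
    rw [hP]
    exact_mod_cast (by omega : M * L ≤ 2 * (M * L) + 1)
  calc ε * R / (4 * W₀ * M ^ k) * ((M * L : ℕ) : ℝ) ^ (k + 1)
      = ε * R / (4 * W₀) * ((L : ℝ) ^ k * ((M * L : ℕ) : ℝ)) := by
        rw [pow_succ]
        push_cast
        rw [mul_pow]
        field_simp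
    _ ≤ ε * R / (4 * W) * ((L : ℝ) ^ k * P) := by
        gcongr

end Pool.Agent.H96.BH
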