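import Pool.Agent.H61.HB.Def
import Pool.Agent.H99.HP.Df

/-!
# [H96 BH DfD] Theorem D+ (MP_8923e7_nt): bounded dilates at all scales, definitions and interface

`dil M AA` is the set of the dilates `m a`, `1 ≤ m ≤ M`, `a ∈ AA`. `CorD`: for every dense `S ⊆ [1, M L]` and every dense set
`AA ⊆ [1, L]^k` of tuples a positive proportion of the pairs `(t, c)` has `t ∈ S`, `c` a dilate of an element of `AA` and `t + c_i ∈ S` for all `i`.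
-/

set_option autoImplicit false

namespace Pool.Agent.H96.BH

open Finset

/-- the dilates `m a`, `1 ≤ m ≤ M`, `a ∈ AA` -/
def dil {k : ℕ} (M : ℕ) (AA : Finset (Fin k → ℕ)) : Finset (Fin k → ℕ) :=
  (Icc 1 M ×ˢ AA).image fun z i => z.1 * z.2 i

/-- the combinatorial input of Theorem D+ -/
def CorD : Prop :=
  ∀ (k : ℕ) (d ε : ℝ), 0 < d → d ≤ 1 → 0 < ε → ε ≤ 1 → ∃ (M : ℕ) (γ : ℝ) (L₀ : ℕ), 1 ≤ M ∧ 0 < γ ∧
    ∀ L : ℕ, L₀ ≤ L → ∀ S : Finset ℕ, S ⊆ Icc 1 (M * L) → d * (M * L : ℕ) ≤ S.card →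
      ∀ AA : Finset (Fin k → ℕ), AA ⊆ Fintype.piFinset (fun _ : Fin k => Icc 1 L) →
        ε * (L : ℝ) ^ k ≤ AA.card →
          γ * ((M * L : ℕ) : ℝ) ^ (k + 1) ≤ (Pool.Agent.H99.HP.cnf S (dil M AA)).card

section P

variable {P : ℕ} [NeZero P]

/-- the number `(m + 1) (c + 1)` in `ZMod P` -/
def mc {M L : ℕ} (m : Fin M) (c : Fin L) : ZMod P := ((((m : ℕ) + 1) * ((c : ℕ) + 1) : ℕ) : ZMod P)

/-- `∑ m ≤ M, |∑ c ≤ L, e(q m c / P)|²` -/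
noncomputable def kf (M L : ℕ) (q : ZMod P) : ℝ :=
  ∑ m : Fin M, ‖∑ c : Fin L, Pool.Agent.H61.HB.ee (q * mc m c)‖ ^ 2

/-- bilinear averages of `g (x + m c)` over `m ≤ M`, `c ≤ L` are at most `β` -/
def AvP (β : ℝ) (M L : ℕ) (g : ZMod P → ℝ) : Prop :=
  ∀ (W : Fin M → Fin L → ℝ) (G : Fin M → ZMod P → ℝ), (∀ m c, |W m c| ≤ 1) → (∀ m x, |G m x| ≤ 1) →
    |∑ m, ∑ c, ∑ x, W m c * G m x * g (x + mc m c)| ≤ β * M * L * P

end P

end Pool.Agent.H96.BH
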