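import Pool.Agent.H96.BH.KqA

/-!
# [H96 BH KQ] The number of `q` with a large value `kf M L q` is bounded

We may assume `κ ≤ 1` (`min κ 1`). `h = ⌈4/κ⌉₊`, `M₀ ≥ 8 h / κ`, `L₀ ≥ 8 (M + 1) / κ + 1`. Let `κ M L² ≤ kf M L q`, `θ = q.val / P`. `ee (q * mc m c) = e(θ (m+1) (c+1))`
(`ZMod.stdAddChar_apply`/`ZMod.stdAddChar_coe`, `ZMod.natCast_zmod_val`). The `m` with `‖∑ c‖² ≥ (κ/2) L²` are at least `κ M / 2` many (each term is `≤ L²`), and for them `geo` gives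
`|θ (m+1) - round| ≤ 1 / ‖∑ c‖ ≤ 1 / (√(κ/2) L) `; since `κ ≤ 1`, `√(κ/2) ≥ κ/2`, so use the constant `κ/2` in place of `κ` in `appr` (that is: put `κ' = κ/2` and apply everything with `κ'`:
`κ' / 2 * M ≤ κ M / 2`, `1 / (κ' L)`). So `|θ q₀ - z₀| ≤ 8 h / (κ'² M L)`, `|q.val q₀ - z₀ P| ≤ 8 h P / (κ'² M L) ≤ 24 h / κ'²` (`P = 2 M L + 1 ≤ 3 M L`), an integer `e = q.val q₀ - z₀ P`
with `|e| ≤ C₁ := ⌈24 h / κ'²⌉₊`, and `0 ≤ q.val < P` gives `-C₁ ≤ z₀ ≤ h + C₁`. The map `q ↦ (q₀, z₀, e)` is injective on the set (`q.val = (e + z₀ P) / q₀`), with values in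
`Icc 1 h × Icc (-C₁) (h + C₁) × Icc (-C₁) C₁`.
-/

set_option autoImplicit false

namespace Pool.Agent.H96.BH

open Finset

private theorem ee_nat {P : ℕ} [NeZero P] (n : ℕ) :
    Pool.Agent.H61.HB.ee ((n : ℕ) : ZMod P) =
      Complex.exp (2 * Real.pi * Complex.I * n / P) := by
  unfold Pool.Agent.H61.HB.ee
  have h := ZMod.stdAddChar_coe (N := P) (n : ℤ)
  simpa using h

private theorem close_of_large {P : ℕ} [NeZero P] (q : ZMod P) {M L : ℕ} (m : Fin M) (κ : ℝ)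
    (hκ : 0 < κ) (hL : 0 < L)
    (hS : κ * L ≤ ‖∑ c : Fin L, Pool.Agent.H61.HB.ee (q * mc m c)‖) :
    |((q.val : ℝ) / P) * ((m : ℕ) + 1 : ℕ) -
      round (((q.val : ℝ) / P) * ((m : ℕ) + 1 : ℕ))| ≤ 1 / (κ * L) := by
  have hL' : (0 : ℝ) < L := Nat.cast_pos.2 hL
  have hP : (P : ℂ) ≠ 0 := Nat.cast_ne_zero.2 (NeZero.ne P)
  have h1 : ∑ c : Fin L, Pool.Agent.H61.HB.ee (q * mc m c) =
      ∑ c : Fin L, Complex.exp (2 * Real.pi * Complex.I *
        ((((q.val : ℝ) / P) * ((m : ℕ) + 1 : ℕ) : ℝ) * ((c : ℕ) + 1 : ℕ))) := by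
    refine Finset.sum_congr rfl fun c _ => ?_
    have h2 : q * mc m c = ((q.val * (((m : ℕ) + 1) * ((c : ℕ) + 1)) : ℕ) : ZMod P) := by
      unfold mc
      rw [Nat.cast_mul q.val, ZMod.natCast_zmod_val]
    rw [h2, ee_nat]
    congr 1
    push_cast
    field_simp
  have h3 := geo (((q.val : ℝ) / P) * ((m : ℕ) + 1 : ℕ)) L
  rw [← h1] at h3
  rw [le_div_iff₀ (by positivity), mul_comm]
  exact le_trans (mul_le_mul_of_nonneg_right hS (abs_nonneg _)) h3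

theorem kq (κ : ℝ) (hκ : 0 < κ) : ∃ (Q M₀ : ℕ), ∀ M : ℕ, M₀ ≤ M → ∃ L₀ : ℕ, ∀ L : ℕ, L₀ ≤ L →
    ∀ (P : ℕ) [NeZero P], P = 2 * (M * L) + 1 →
      (((univ : Finset (ZMod P)).filter fun q : ZMod P => κ * M * (L : ℝ) ^ 2 ≤ kf M L q).card : ℝ) ≤ Q := by
  classical
  obtain ⟨κ₁, hκ₁⟩ : ∃ κ₁ : ℝ, κ₁ = min κ 1 := ⟨_, rfl⟩
  have hκ1 : 0 < κ₁ := by rw [hκ₁]; exact lt_min hκ one_pos
  have hκ2 : κ₁ ≤ 1 := by rw [hκ₁]; exact min_le_right _ _
  have hκ3 : κ₁ ≤ κ := by rw [hκ₁]; exact min_le_left _ _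
  obtain ⟨κ', hκ'⟩ : ∃ κ' : ℝ, κ' = κ₁ / 2 := ⟨_, rfl⟩
  have hκ'0 : 0 < κ' := by rw [hκ']; positivity
  have hκ'1 : κ' ≤ 1 := by rw [hκ']; linarith
  obtain ⟨h, hh⟩ := exists_nat_ge (4 / κ')
  obtain ⟨M₀, hM₀⟩ := exists_nat_ge (8 * h / κ')
  obtain ⟨C, hC⟩ := exists_nat_ge (24 * h / κ' ^ 2)
  refine ⟨((Finset.Icc 1 h) ×ˢ (Finset.Icc (-(C : ℤ)) (h + C)) ×ˢ
    (Finset.Icc (-(C : ℤ)) C)).card, M₀ + 1, fun M hM => ?_⟩
  obtain ⟨L₀, hL₀⟩ := exists_nat_ge (8 * (M + 1) / κ' + 1)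
  refine ⟨L₀, fun L hL P _ hP => ?_⟩
  have hM1 : 1 ≤ M := by omega
  have hM' : (1 : ℝ) ≤ M := by exact_mod_cast hM1
  have hMr : 8 * (h : ℝ) / κ' ≤ M := hM₀.trans (by exact_mod_cast (show M₀ ≤ M by omega))
  have hLr : 8 * ((M : ℝ) + 1) / κ' + 1 ≤ L := hL₀.trans (by exact_mod_cast hL)
  have hL1 : (1 : ℝ) ≤ L := by
    have : 0 ≤ 8 * ((M : ℝ) + 1) / κ' := by positivity
    linarith
  have hL2 : 0 < L := by
    have : (0 : ℝ) < L := by linarith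
    exact_mod_cast this
  have hP0 : (0 : ℝ) < P := by exact_mod_cast Nat.pos_of_ne_zero (NeZero.ne P)
  have hPr : (P : ℝ) ≤ 3 * (M * L) := by
    have h1 : (P : ℝ) = 2 * (M * L) + 1 := by rw [hP]; push_cast; ring
    have h2 : (1 : ℝ) ≤ M * L := one_le_mul_of_one_le_of_one_le hM' hL1
    linarith
  have hkey : ∀ q : ZMod P, κ * M * (L : ℝ) ^ 2 ≤ kf M L q →
      ∃ t : ℕ × ℤ × ℤ, t ∈ (Finset.Icc 1 h) ×ˢ (Finset.Icc (-(C : ℤ)) (h + C)) ×ˢ
        (Finset.Icc (-(C : ℤ)) C) ∧ (q.val : ℤ) * t.1 = t.2.2 + t.2.1 * P := by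
    intro q hq
    set S : Fin M → ℝ := fun m => ‖∑ c : Fin L, Pool.Agent.H61.HB.ee (q * mc m c)‖ with hS
    have hS0 : ∀ m, 0 ≤ S m := fun m => norm_nonneg _
    have hSL : ∀ m, S m ≤ L := by
      intro m
      calc S m ≤ ∑ c : Fin L, ‖Pool.Agent.H61.HB.ee (q * mc m c)‖ := norm_sum_le _ _
        _ = ∑ _c : Fin L, (1 : ℝ) := Finset.sum_congr rfl fun c _ =>
            AddChar.norm_apply (ZMod.stdAddChar (N := P)) _
        _ = L := by simp
    have hk : kf M L q = ∑ m, S m ^ 2 := rfl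
    have hsplit : ∑ m, S m ^ 2 ≤
        ((univ.filter fun m => κ' * L ≤ S m).card : ℝ) * (L : ℝ) ^ 2 +
          M * (κ' * (L : ℝ) ^ 2) := by
      have h1 : ∀ m, S m ^ 2 ≤ (if κ' * L ≤ S m then (L : ℝ) ^ 2 else 0) + κ' * (L : ℝ) ^ 2 := by
        intro m
        split_ifs with hc
        · have h2 : S m ^ 2 ≤ (L : ℝ) ^ 2 := pow_le_pow_left₀ (hS0 m) (hSL m) 2
          have h3 : 0 ≤ κ' * (L : ℝ) ^ 2 := by positivity
          linarith
        · rw [not_le] at hc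
          have h2 : S m ^ 2 ≤ (κ' * L) ^ 2 := pow_le_pow_left₀ (hS0 m) hc.le 2
          have h3 : (κ' * (L : ℝ)) ^ 2 ≤ κ' * (L : ℝ) ^ 2 := by
            have h4 : κ' ^ 2 ≤ κ' := by nlinarith
            rw [mul_pow]
            exact mul_le_mul_of_nonneg_right h4 (by positivity)
          linarith
      calc ∑ m, S m ^ 2 ≤ ∑ m : Fin M, ((if κ' * L ≤ S m then (L : ℝ) ^ 2 else 0) +
            κ' * (L : ℝ) ^ 2) := Finset.sum_le_sum fun m _ => h1 m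
        _ = _ := by
            rw [Finset.sum_add_distrib, ← Finset.sum_filter, Finset.sum_const, nsmul_eq_mul,
              Finset.sum_const, nsmul_eq_mul, Finset.card_univ, Fintype.card_fin]
    have hcard : κ' * M ≤ ((univ.filter fun m => κ' * L ≤ S m).card : ℝ) := by
      have h1 : κ₁ * M * (L : ℝ) ^ 2 ≤ κ * M * (L : ℝ) ^ 2 := by
        have : 0 ≤ M * (L : ℝ) ^ 2 := by positivity
        nlinarith
      have h2 : κ₁ * M * (L : ℝ) ^ 2 ≤
          ((univ.filter fun m => κ' * L ≤ S m).card : ℝ) * (L : ℝ) ^ 2 +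
            M * (κ' * (L : ℝ) ^ 2) := by
        rw [← hk] at hsplit
        linarith
      have h3 : κ' * M * (L : ℝ) ^ 2 ≤
          ((univ.filter fun m => κ' * L ≤ S m).card : ℝ) * (L : ℝ) ^ 2 := by
        have h4 : κ₁ = 2 * κ' := by rw [hκ']; ring
        rw [h4] at h2
        nlinarith
      exact le_of_mul_le_mul_right h3 (by positivity)
    have hG : κ' / 2 * M ≤ (((univ : Finset (Fin M)).filter fun m : Fin M =>
        |((q.val : ℝ) / P) * ((m : ℕ) + 1 : ℕ) -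
          round (((q.val : ℝ) / P) * ((m : ℕ) + 1 : ℕ))| ≤ 1 / (κ' * L)).card : ℝ) := by
      have h1 : (univ.filter fun m => κ' * L ≤ S m).card ≤
          ((univ : Finset (Fin M)).filter fun m : Fin M =>
            |((q.val : ℝ) / P) * ((m : ℕ) + 1 : ℕ) -
              round (((q.val : ℝ) / P) * ((m : ℕ) + 1 : ℕ))| ≤ 1 / (κ' * L)).card := by
        refine Finset.card_le_card fun m hm => ?_
        exact Finset.mem_filter.2 ⟨Finset.mem_univ _,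
          close_of_large q m κ' hκ'0 hL2 (Finset.mem_filter.1 hm).2⟩
      have h2 : ((univ.filter fun m => κ' * L ≤ S m).card : ℝ) ≤
          (((univ : Finset (Fin M)).filter fun m : Fin M =>
            |((q.val : ℝ) / P) * ((m : ℕ) + 1 : ℕ) -
              round (((q.val : ℝ) / P) * ((m : ℕ) + 1 : ℕ))| ≤ 1 / (κ' * L)).card : ℝ) := by
        exact_mod_cast h1
      have h3 : κ' / 2 * M ≤ κ' * M := by nlinarith
      linarith
    obtain ⟨q₀, z₀, hq1, hq2, hq3⟩ := appr κ' hκ'0 hκ'1 M L h hh hMr hLr ((q.val : ℝ) / P) hG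
    have hval : (q.val : ℝ) < P := by exact_mod_cast ZMod.val_lt q
    have he : |(q.val : ℝ) * q₀ - z₀ * P| ≤ C := by
      have h1 : (q.val : ℝ) * q₀ - z₀ * P = ((q.val : ℝ) / P * q₀ - z₀) * P := by
        field_simp
      rw [h1, abs_mul, abs_of_pos hP0]
      calc |(q.val : ℝ) / P * q₀ - z₀| * P ≤ 8 * h / (κ' ^ 2 * M * L) * P :=
            mul_le_mul_of_nonneg_right hq3 hP0.le
        _ ≤ 8 * h / (κ' ^ 2 * M * L) * (3 * (M * L)) :=
            mul_le_mul_of_nonneg_left hPr (by positivity)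
        _ = 24 * h / κ' ^ 2 := by
            field_simp
            ring
        _ ≤ C := hC
    have heZ : |(q.val : ℤ) * q₀ - z₀ * P| ≤ C := by
      have h1 : ((|(q.val : ℤ) * q₀ - z₀ * P| : ℤ) : ℝ) ≤ ((C : ℤ) : ℝ) := by
        push_cast
        exact he
      exact_mod_cast h1
    rw [abs_le] at heZ
    have hPZ : (1 : ℤ) ≤ P := by
      have : 0 < P := Nat.pos_of_ne_zero (NeZero.ne P)
      omega
    have hvZ : (q.val : ℤ) < P := by exact_mod_cast ZMod.val_lt q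
    have hv0 : (0 : ℤ) ≤ q.val := Int.natCast_nonneg _
    have hq0Z : (q₀ : ℤ) ≤ h := by exact_mod_cast hq2
    have hq00 : (0 : ℤ) ≤ q₀ := Int.natCast_nonneg _
    have hC0 : (0 : ℤ) ≤ C := Int.natCast_nonneg _
    have hz1 : -(C : ℤ) ≤ z₀ := by
      by_contra hcon
      rw [not_le] at hcon
      have h1 : z₀ * P ≤ (-(C : ℤ) - 1) * P :=
        mul_le_mul_of_nonneg_right (by omega) (by omega)
      have h2 : 0 ≤ (q.val : ℤ) * q₀ := mul_nonneg hv0 hq00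
      nlinarith
    have hz2 : z₀ ≤ h + C := by
      by_contra hcon
      rw [not_le] at hcon
      have h1 : ((h : ℤ) + C + 1) * P ≤ z₀ * P :=
        mul_le_mul_of_nonneg_right (by omega) (by omega)
      have h2 : (q.val : ℤ) * q₀ ≤ P * h := mul_le_mul hvZ.le hq0Z hq00 (by omega)
      nlinarith
    refine ⟨(q₀, z₀, (q.val : ℤ) * q₀ - z₀ * P), ?_, ?_⟩
    · rw [Finset.mem_product, Finset.mem_product, Finset.mem_Icc, Finset.mem_Icc, Finset.mem_Icc]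
      exact ⟨⟨hq1, hq2⟩, ⟨hz1, hz2⟩, heZ.1, heZ.2⟩
    · simp only
      ring
  choose! t ht1 ht2 using hkey
  refine Nat.cast_le.2 (Finset.card_le_card_of_injOn t ?_ ?_)
  · intro q hq
    exact Finset.mem_coe.2 (ht1 q (Finset.mem_filter.1 (Finset.mem_coe.1 hq)).2)
  · intro q hq q' hq' hEq
    have h1 := ht2 q (Finset.mem_filter.1 (Finset.mem_coe.1 hq)).2
    have h2 := ht2 q' (Finset.mem_filter.1 (Finset.mem_coe.1 hq')).2
    have h3 := ht1 q (Finset.mem_filter.1 (Finset.mem_coe.1 hq)).2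
    rw [Finset.mem_product, Finset.mem_Icc] at h3
    rw [← hEq] at h2
    have h4 : (q.val : ℤ) * (t q).1 = (q'.val : ℤ) * (t q).1 := by rw [h1, h2]
    have h5 : ((t q).1 : ℤ) ≠ 0 := by
      have := h3.1.1
      omega
    have h6 : (q.val : ℤ) = q'.val := mul_right_cancel₀ h5 h4
    exact ZMod.val_injective P (by exact_mod_cast h6)

end Pool.Agent.H96.BH
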