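import Pool.Agent.H96.BH.DfD

/-!
# [H96 BH KQA] Large values of the exponential sums: rational approximation (real numbers)

`geo`: with `z = e(θ)` (`θ` real): `(∑ c < L, z^(c+1)) (z - 1) = z (z^L - 1)`, so `‖∑‖ ‖z - 1‖ ≤ 2`, and `‖z - 1‖ = 2 |sin (π θ)| ≥ 4 ‖θ‖`, here `‖θ‖ = |θ - round θ|`
(`Complex.norm_exp_I_mul_ofReal_sub_one`-type, `Real.mul_le_sin`/ Jordan: `sin x ≥ 2 x / π` for `0 ≤ x ≤ π/2`; `e(θ) = e(θ - round θ)`).
`appr`: `G` = the `m < M` with `|θ (m+1) - round| ≤ ρ`, `ρ = 1/(κ L)`. Let `h = ⌈4/κ⌉₊`. (1) `card G ≥ κ M / 2 > M / h + 1` so two elements `m < m'` of `G` are in the same block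
`[i h, (i+1) h)` (`Finset.exists_ne_map_eq_of_card_lt_of_maps_to` with `m ↦ m / h`): `q₀ = m' - m`, `1 ≤ q₀ < h`, `‖θ q₀‖ ≤ 2 ρ`. (2) Some class modulo `q₀` contains at least
`card G / q₀ ≥ κ M / (2 h)` elements of `G`; the difference `Δ` of the largest and the least element is a multiple `l q₀` with `l ≥ κ M / (2 h) - 1 ≥ κ M / (4 h)`, `l ≤ M`,
`‖θ l q₀‖ ≤ 2 ρ`. (3) `z₀ = round (θ q₀)`, `ξ = θ q₀ - z₀`, `|ξ| ≤ 2 ρ`, `|l ξ| ≤ 2 M / (κ L) < 1/4`; `θ l q₀ = l z₀ + l ξ`, so `|l ξ - z| ≤ 2 ρ < 1/4` for an integer `z`, `|z| < 1/2`,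
`z = 0`, `|l ξ| ≤ 2 ρ`, `|ξ| ≤ 2 ρ / l ≤ 8 h / (κ² M L)`.
-/

set_option autoImplicit false

namespace Pool.Agent.H96.BH

open Finset

private lemma kqa_low (θ : ℝ) :
    4 * |θ - round θ| ≤ ‖Complex.exp (2 * Real.pi * Complex.I * θ) - 1‖ := by
  obtain ⟨t, ht⟩ : ∃ t : ℝ, t = θ - round θ := ⟨_, rfl⟩
  have ht2 : |t| ≤ 1 / 2 := by rw [ht]; exact abs_sub_round θ
  have h1 : Complex.exp (2 * Real.pi * Complex.I * θ) =
      Complex.exp (Complex.I * ((2 * Real.pi * t : ℝ) : ℂ)) := by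
    have h2 : (2 * Real.pi * Complex.I * θ : ℂ) = Complex.I * ((2 * Real.pi * t : ℝ) : ℂ) +
        ((round θ : ℤ) : ℂ) * (2 * Real.pi * Complex.I) := by
      rw [ht]
      push_cast
      ring
    rw [h2, Complex.exp_add, Complex.exp_int_mul_two_pi_mul_I, mul_one]
  rw [h1, Complex.norm_exp_I_mul_ofReal_sub_one, ← ht]
  have h3 : 2 * Real.pi * t / 2 = Real.pi * t := by ring
  rw [h3, norm_mul, Real.norm_eq_abs, Real.norm_eq_abs, abs_two]
  have hpi := Real.pi_pos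
  have h4 : |Real.pi * t| ≤ Real.pi / 2 := by
    rw [abs_mul, abs_of_pos hpi]
    nlinarith
  have h5 := Real.mul_abs_le_abs_sin h4
  rw [abs_mul, abs_of_pos hpi] at h5
  have h6 : 2 / Real.pi * (Real.pi * |t|) = 2 * |t| := by
    field_simp
  rw [h6] at h5
  linarith

theorem geo (θ : ℝ) (L : ℕ) :
    ‖∑ c : Fin L, Complex.exp (2 * Real.pi * Complex.I * (θ * ((c : ℕ) + 1 : ℕ)))‖ * |θ - round θ| ≤ 1 := by
  obtain ⟨z, hz⟩ : ∃ z : ℂ, z = Complex.exp (2 * Real.pi * Complex.I * θ) := ⟨_, rfl⟩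
  have hlow := kqa_low θ
  rw [← hz] at hlow
  have hpow : ∀ c : ℕ, Complex.exp (2 * Real.pi * Complex.I * (θ * ((c + 1 : ℕ) : ℂ))) = z ^ c * z := by
    intro c
    rw [← pow_succ, hz, ← Complex.exp_nat_mul]
    congr 1
    ring
  have hnorm : ‖z‖ = 1 := by
    have h1 : (2 * Real.pi * Complex.I * θ : ℂ) = ((2 * Real.pi * θ : ℝ) : ℂ) * Complex.I := by
      push_cast
      ring
    rw [hz, h1, Complex.norm_exp_ofReal_mul_I]
  have hsum : ∑ c : Fin L, Complex.exp (2 * Real.pi * Complex.I * (θ * ((c : ℕ) + 1 : ℕ))) =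
      (∑ c ∈ range L, z ^ c) * z := by
    rw [Finset.sum_mul, ← Fin.sum_univ_eq_sum_range (fun c => z ^ c * z) L]
    exact Finset.sum_congr rfl fun c _ => hpow c
  have hgeo : ‖(∑ c ∈ range L, z ^ c) * z‖ * ‖z - 1‖ ≤ 2 := by
    rw [norm_mul, hnorm, mul_one, ← norm_mul, geom_sum_mul]
    refine (norm_sub_le _ _).trans ?_
    rw [norm_pow, hnorm, one_pow, norm_one]
    norm_num
  rw [hsum]
  have h0 := norm_nonneg ((∑ c ∈ range L, z ^ c) * z)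
  have h1 : ‖(∑ c ∈ range L, z ^ c) * z‖ * (4 * |θ - round θ|) ≤ 2 :=
    (mul_le_mul_of_nonneg_left hlow h0).trans hgeo
  linarith

/-- a number with many good multiples is close to a rational number with small denominator -/
theorem appr (κ : ℝ) (hκ : 0 < κ) (hκ1 : κ ≤ 1) (M L : ℕ) (h : ℕ) (hh : 4 / κ ≤ h) (hM : 8 * h / κ ≤ M)
    (hL : 8 * (M + 1) / κ + 1 ≤ L) (θ : ℝ)
    (hG : κ / 2 * M ≤ (((univ : Finset (Fin M)).filter fun m : Fin M =>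
      |θ * ((m : ℕ) + 1 : ℕ) - round (θ * ((m : ℕ) + 1 : ℕ))| ≤ 1 / (κ * L)).card : ℝ)) :
    ∃ (q₀ : ℕ) (z₀ : ℤ), 1 ≤ q₀ ∧ q₀ ≤ h ∧ |θ * q₀ - z₀| ≤ 8 * h / (κ ^ 2 * M * L) := by
  classical
  obtain ⟨ρ, hρ⟩ : ∃ ρ : ℝ, ρ = 1 / (κ * L) := ⟨_, rfl⟩
  rw [← hρ] at hG
  -- the set as a set of natural numbers
  obtain ⟨G, hGd⟩ : ∃ G : Finset ℕ, G = ((univ : Finset (Fin M)).filter fun m : Fin M =>
      |θ * ((m : ℕ) + 1 : ℕ) - round (θ * ((m : ℕ) + 1 : ℕ))| ≤ ρ).image (fun m : Fin M => (m : ℕ)) :=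
    ⟨_, rfl⟩
  have hGc : G.card = ((univ : Finset (Fin M)).filter fun m : Fin M =>
      |θ * ((m : ℕ) + 1 : ℕ) - round (θ * ((m : ℕ) + 1 : ℕ))| ≤ ρ).card := by
    rw [hGd]
    exact Finset.card_image_of_injective _ Fin.val_injective
  have hGm : ∀ m ∈ G, m < M ∧ ∃ z : ℤ, |θ * ((m + 1 : ℕ) : ℝ) - z| ≤ ρ := by
    intro m hm
    rw [hGd, Finset.mem_image] at hm
    obtain ⟨m', hm', rfl⟩ := hm
    rw [Finset.mem_filter] at hm'
    exact ⟨m'.2, _, hm'.2⟩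
  rw [← hGc] at hG
  -- positivity
  have hh0 : (0 : ℝ) < h := lt_of_lt_of_le (by positivity) hh
  have hh0' : 0 < h := by exact_mod_cast hh0
  have hM0 : (0 : ℝ) < M := lt_of_lt_of_le (by positivity) hM
  have hM0' : 0 < M := by exact_mod_cast hM0
  have hL0 : (0 : ℝ) < L := lt_of_lt_of_le (by positivity) hL
  have hρ0 : 0 < ρ := by rw [hρ]; positivity
  have hh' : 4 ≤ κ * h := by
    rw [div_le_iff₀ hκ] at hh
    linarith
  have hM' : 8 * h ≤ κ * M := by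
    rw [div_le_iff₀ hκ] at hM
    linarith
  have hL' : 8 * (M + 1) ≤ κ * L := by
    have h1 : 8 * (M + 1) / κ ≤ L := by linarith
    rw [div_le_iff₀ hκ] at h1
    linarith
  have hρ1 : ρ * (κ * L) = 1 := by
    rw [hρ]
    exact one_div_mul_cancel (by positivity)
  -- (1)
  have h1 : (range (M / h + 1)).card < G.card := by
    rw [Finset.card_range]
    have e1 : ((M / h : ℕ) : ℝ) ≤ (M : ℝ) / h := Nat.cast_div_le
    have e2 : 2 * ((M : ℝ) / h) ≤ κ / 2 * M := by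
      rw [← mul_div_assoc, div_le_iff₀ hh0]
      nlinarith
    have e3 : 8 ≤ (M : ℝ) / h := by
      rw [le_div_iff₀ hh0]
      nlinarith
    have e4 : (((M / h + 1 : ℕ)) : ℝ) < G.card := by
      push_cast
      linarith
    exact_mod_cast e4
  obtain ⟨m₁, hm₁, m₂, hm₂, hne, heq⟩ := Finset.exists_ne_map_eq_of_card_lt_of_maps_to h1
    (f := fun m => m / h) (fun m hm => Finset.mem_range.2 (Nat.lt_succ_of_le
      (Nat.div_le_div_right (hGm m hm).1.le)))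
  have hq : ∃ q₀ : ℕ, ∃ z₀ : ℤ, 1 ≤ q₀ ∧ q₀ < h ∧ |θ * q₀ - z₀| ≤ 2 * ρ := by
    have key : ∀ a b : ℕ, a ∈ G → b ∈ G → a < b → a / h = b / h →
        ∃ q₀ : ℕ, ∃ z₀ : ℤ, 1 ≤ q₀ ∧ q₀ < h ∧ |θ * q₀ - z₀| ≤ 2 * ρ := by
      intro a b ha hb hab hdiv
      obtain ⟨-, za, hza⟩ := hGm a ha
      obtain ⟨-, zb, hzb⟩ := hGm b hb
      refine ⟨b - a, zb - za, by omega, ?_, ?_⟩
      · have ea := Nat.div_add_mod a h
        have eb := Nat.div_add_mod b h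
        have ra := Nat.mod_lt a hh0'
        have rb := Nat.mod_lt b hh0'
        rw [hdiv] at ea
        omega
      · have e1 : θ * ((b - a : ℕ) : ℝ) - ((zb - za : ℤ) : ℝ) =
            (θ * ((b + 1 : ℕ) : ℝ) - zb) - (θ * ((a + 1 : ℕ) : ℝ) - za) := by
          rw [Nat.cast_sub hab.le]
          push_cast
          ring
        rw [e1]
        refine (abs_sub _ _).trans ?_
        linarith
    rcases lt_or_gt_of_ne hne with hlt | hlt
    · exact key m₁ m₂ hm₁ hm₂ hlt heq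
    · exact key m₂ m₁ hm₂ hm₁ hlt heq.symm
  obtain ⟨q₀, z₀, hq1, hqh, hqz⟩ := hq
  refine ⟨q₀, z₀, hq1, hqh.le, ?_⟩
  have hq0 : 0 < q₀ := hq1
  -- (2)
  obtain ⟨r, hr, hrc⟩ : ∃ r ∈ range q₀, κ * M / (2 * h) ≤
      ((G.filter fun m => m % q₀ = r).card : ℝ) := by
    by_contra hcon
    push Not at hcon
    have e1 : G.card = ∑ r ∈ range q₀, (G.filter fun m => m % q₀ = r).card :=
      Finset.card_eq_sum_card_fiberwise (fun m _ => Finset.mem_coe.2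
        (Finset.mem_range.2 (Nat.mod_lt m hq0)))
    have e2 : (G.card : ℝ) < ∑ r ∈ range q₀, κ * M / (2 * h) := by
      rw [e1]
      push_cast
      exact Finset.sum_lt_sum_of_nonempty (Finset.nonempty_range_iff.2 hq0.ne') hcon
    rw [Finset.sum_const, Finset.card_range, nsmul_eq_mul] at e2
    have e3 : (q₀ : ℝ) * (κ * M / (2 * h)) ≤ κ / 2 * M := by
      have e4 : (q₀ : ℝ) ≤ h := by exact_mod_cast hqh.le
      rw [← mul_div_assoc, div_le_iff₀ (by positivity)]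
      have e5 : 0 ≤ κ * M := by positivity
      nlinarith
    linarith
  obtain ⟨B, hB⟩ : ∃ B : Finset ℕ, B = (G.filter fun m => m % q₀ = r).image (fun m => m / q₀) :=
    ⟨_, rfl⟩
  have hBc : B.card = (G.filter fun m => m % q₀ = r).card := by
    rw [hB]
    apply Finset.card_image_of_injOn
    intro a ha b hb hab
    have ha2 := (Finset.mem_filter.1 ha).2
    have hb2 := (Finset.mem_filter.1 hb).2
    have hab' : a / q₀ = b / q₀ := hab
    have ea := Nat.div_add_mod a q₀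
    have eb := Nat.div_add_mod b q₀
    rw [← ea, ← eb, hab', ha2, hb2]
  have hBm : ∀ b ∈ B, q₀ * b + r ∈ G := by
    intro b hb
    rw [hB, Finset.mem_image] at hb
    obtain ⟨m, hm, rfl⟩ := hb
    rw [Finset.mem_filter] at hm
    have em := Nat.div_add_mod m q₀
    rw [hm.2] at em
    rw [em]
    exact hm.1
  have hBr : κ * M / (2 * h) ≤ (B.card : ℝ) := by
    rw [hBc]
    exact hrc
  have hBne : B.Nonempty := by
    rw [← Finset.card_pos]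
    have e1 : (0 : ℝ) < B.card := lt_of_lt_of_le (by positivity) hBr
    exact_mod_cast e1
  obtain ⟨b₁, hb₁⟩ : ∃ b₁, b₁ = B.min' hBne := ⟨_, rfl⟩
  obtain ⟨b₂, hb₂⟩ : ∃ b₂, b₂ = B.max' hBne := ⟨_, rfl⟩
  have hb₁B : b₁ ∈ B := by rw [hb₁]; exact Finset.min'_mem _ _
  have hb₂B : b₂ ∈ B := by rw [hb₂]; exact Finset.max'_mem _ _
  have hb12 : b₁ ≤ b₂ := by rw [hb₁]; exact Finset.min'_le _ _ hb₂B
  have hcardB : B.card ≤ b₂ - b₁ + 1 := by
    have e1 : B ⊆ Finset.Icc b₁ b₂ := by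
      intro b hb
      rw [Finset.mem_Icc, hb₁, hb₂]
      exact ⟨Finset.min'_le _ _ hb, Finset.le_max' _ _ hb⟩
    have e2 := Finset.card_le_card e1
    rw [Nat.card_Icc] at e2
    omega
  obtain ⟨l, hl⟩ : ∃ l, l = b₂ - b₁ := ⟨_, rfl⟩
  rw [← hl] at hcardB
  have hlr : κ * M / (4 * h) ≤ (l : ℝ) := by
    have e1 : (B.card : ℝ) ≤ (l : ℝ) + 1 := by exact_mod_cast hcardB
    have e2 : κ * M / (2 * h) = 2 * (κ * M / (4 * h)) := by
      field_simp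
      ring
    have e3 : 1 ≤ κ * M / (4 * h) := by
      rw [le_div_iff₀ (by positivity)]
      linarith
    rw [e2] at hBr
    linarith
  have hl0 : (0 : ℝ) < l := lt_of_lt_of_le (by positivity) hlr
  obtain ⟨hlt2, zb, hzb⟩ := hGm _ (hBm b₂ hb₂B)
  obtain ⟨-, za, hza⟩ := hGm _ (hBm b₁ hb₁B)
  have hlM : (l : ℝ) ≤ M := by
    have e1 : b₂ ≤ q₀ * b₂ := Nat.le_mul_of_pos_left _ hq0
    have e2 : l ≤ M := by omega
    exact_mod_cast e2
  -- (3)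
  have hlq : |θ * (l * q₀) - ((zb - za : ℤ) : ℝ)| ≤ 2 * ρ := by
    have e1 : θ * (l * q₀) - ((zb - za : ℤ) : ℝ) =
        (θ * ((q₀ * b₂ + r + 1 : ℕ) : ℝ) - zb) - (θ * ((q₀ * b₁ + r + 1 : ℕ) : ℝ) - za) := by
      rw [hl, Nat.cast_sub hb12]
      push_cast
      ring
    rw [e1]
    refine (abs_sub _ _).trans ?_
    linarith
  obtain ⟨ξ, hξ⟩ : ∃ ξ : ℝ, ξ = θ * q₀ - z₀ := ⟨_, rfl⟩
  rw [← hξ] at hqz ⊢
  have hρ2 : 16 * M * ρ ≤ 2 := by
    have e1 : ρ * (8 * (M + 1)) ≤ ρ * (κ * L) := mul_le_mul_of_nonneg_left hL' hρ0.le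
    rw [hρ1] at e1
    nlinarith
  have hρ3 : 16 * ρ ≤ 2 := by
    have e1 : ρ * (8 * (M + 1)) ≤ ρ * (κ * L) := mul_le_mul_of_nonneg_left hL' hρ0.le
    rw [hρ1] at e1
    nlinarith
  obtain ⟨w, hw⟩ : ∃ w : ℤ, w = (zb - za) - l * z₀ := ⟨_, rfl⟩
  have hlξ : |l * ξ - w| ≤ 2 * ρ := by
    have e1 : l * ξ - w = θ * (l * q₀) - ((zb - za : ℤ) : ℝ) := by
      rw [hξ, hw]
      push_cast
      ring
    rw [e1]
    exact hlq
  have hlξ2 : |l * ξ| ≤ l * (2 * ρ) := by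
    rw [abs_mul, abs_of_pos hl0]
    exact mul_le_mul_of_nonneg_left hqz hl0.le
  have hlξ3 : |l * ξ| ≤ 1 / 4 := by
    refine hlξ2.trans ?_
    nlinarith
  have hw0 : w = 0 := by
    have e1 : |(w : ℝ)| < 1 := by
      have e2 : (w : ℝ) = l * ξ - (l * ξ - w) := by ring
      rw [e2]
      refine (abs_sub _ _).trans_lt ?_
      linarith
    have e3 : |w| < 1 := by exact_mod_cast e1
    exact Int.abs_lt_one_iff.1 e3
  rw [hw0, Int.cast_zero, sub_zero, abs_mul, abs_of_pos hl0] at hlξ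
  have hfin : |ξ| ≤ 2 * ρ / l := by
    rw [le_div_iff₀ hl0, mul_comm]
    exact hlξ
  refine hfin.trans ?_
  rw [div_le_div_iff₀ hl0 (by positivity)]
  have e1 : 2 * ρ * (κ ^ 2 * M * L) = 2 * (ρ * (κ * L)) * (κ * M) := by ring
  rw [e1, hρ1]
  rw [div_le_iff₀ (by positivity)] at hlr
  nlinarith

end Pool.Agent.H96.BH
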